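import Mathlib

/-!
# HYP: definitions

`MP_16d252_co`: strong independent sets of linear hypertrees.

Part 1 (concrete): hypergraphs `E : Finset (Finset V)`, strong independent sets, hypertrees.

Part 2 (abstract): a finite set `ι` of points (they will be the edges of the hypergraph), vertices
`κ` with the sets `A v : Finset ι` (the edges containing `v`), weights `p e` (the number of
degree-one vertices of the edge `e`), and a family `Z : Finset ι → ℝ⟦X⟧` satisfying the recursion
`Rec`. (`Z F = ∑ X ^ (|F| - |S|)` over the strongly independent sets `S` of vertices all of whose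
edges lie in `F`.)
-/

open Finset

namespace Pool.Agent.HypU

section concrete

variable {V : Type} [Fintype V] [DecidableEq V]

/-- `S` is a strong independent set of the hypergraph with edge set `E`. -/
def StrongIndep (E : Finset (Finset V)) (S : Finset V) : Prop := ∀ e ∈ E, (S ∩ e).card ≤ 1

instance (E : Finset (Finset V)) : DecidablePred (StrongIndep E) := fun _ =>
  inferInstanceAs (Decidable (∀ _ ∈ _, _))

/-- The number of strong independent sets of size `k`. -/
def indepCount (E : Finset (Finset V)) (k : ℕ) : ℕ :=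
  ((univ : Finset (Finset V)).filter (fun S => StrongIndep E S ∧ S.card = k)).card

/-- The hypergraph is a hypertree: some tree on the vertex set induces a connected subgraph on every
edge. -/
def IsHypertree (E : Finset (Finset V)) : Prop :=
  ∃ T : SimpleGraph V, T.IsTree ∧ ∀ e ∈ E, (T.induce (e : Set V)).Preconnected

/-- Two distinct edges share at most one vertex. -/
def IsLinear (E : Finset (Finset V)) : Prop := ∀ e ∈ E, ∀ f ∈ E, e ≠ f → (e ∩ f).card ≤ 1

/-- The degree of a vertex. -/
def deg (E : Finset (Finset V)) (v : V) : ℕ := (E.filter (fun e => v ∈ e)).card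

/-- The number of vertices of degree one in `e`. -/
def priv (E : Finset (Finset V)) (e : Finset V) : ℕ := (e.filter (fun v => deg E v = 1)).card

/-- Unimodal sequence of natural numbers. -/
def Unimodal (a : ℕ → ℕ) : Prop :=
  ∃ m, (∀ k, k < m → a k ≤ a (k + 1)) ∧ (∀ k, m ≤ k → a (k + 1) ≤ a k)

end concrete

section abstract

variable {ι κ : Type} [DecidableEq ι] [Fintype κ]

/-- The shared vertices of `F` through the point `e`: at least two points, one of them `e`, all in
`F`. -/
def Thr (A : κ → Finset ι) (e : ι) (F : Finset ι) : Finset κ :=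
  univ.filter (fun v => 2 ≤ (A v).card ∧ e ∈ A v ∧ A v ⊆ F)

/-- The recursion of the reversed independence polynomials. -/
def Rec (A : κ → Finset ι) (p : ι → ℝ) (Z : Finset ι → PowerSeries ℝ) : Prop :=
  Z ∅ = 1 ∧ ∀ F : Finset ι, ∀ e ∈ F,
    Z F = (PowerSeries.C (p e) + PowerSeries.X) * Z (F.erase e) +
      ∑ v ∈ Thr A e F, PowerSeries.X ^ ((A v).card - 1) * Z (F \ A v)

/-- The local condition (H'): every edge has at least 16 degree-one vertices and
`12 + 4 ∑_{v ∈ e, d_v ≥ 2} (d_v - 1) ∏_{c ∋ v, c ≠ e} 4 / p_c ≤ p_e`. -/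
def Cond (A : κ → Finset ι) (p : ι → ℝ) : Prop :=
  ∀ e : ι, 16 ≤ p e ∧
    12 + 4 * ∑ v ∈ (univ.filter (fun v => 2 ≤ (A v).card ∧ e ∈ A v)),
      (((A v).card : ℝ) - 1) * ∏ c ∈ (A v).erase e, (4 / p c) ≤ p e

/-- The acyclicity data: for every shared vertex `v` a set `B v` of at least `d_v - 1` of its edges,
pairwise disjoint for distinct shared vertices. -/
def Acyc (A : κ → Finset ι) (B : κ → Finset ι) : Prop :=
  (∀ v, 2 ≤ (A v).card → B v ⊆ A v ∧ (A v).card ≤ (B v).card + 1) ∧
    ∀ v w, v ≠ w → 2 ≤ (A v).card → 2 ≤ (A w).card → Disjoint (B v) (B w)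

/-- Weighted `ℓ¹` bound: `∑_{n < N} |f_n| 3 ^ n ≤ M` for all `N`. -/
def Bd (f : PowerSeries ℝ) (M : ℝ) : Prop :=
  ∀ N : ℕ, ∑ n ∈ range N, |PowerSeries.coeff n f| * 3 ^ n ≤ M

end abstract

end Pool.Agent.HypU
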