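import Mathlib
import Pool.Agent.HypU.Defs

/-!
# HYP: module Tree — acyclicity data of a linear hypertree

Fix a root `r` of the host tree `T`. For a nonempty edge `e` let `top e ∈ e` minimise the distance to
`r`. Claim: a vertex `v` lies in at most one edge `e` with `v ≠ top e`. Indeed, if `v ∈ e`,
`v ≠ top e`, then the parent of `v` (the neighbour of `v` on the path to `r`) is in `e`: the path in
`T.induce e` from `v` to `top e` is the path of `T`; if its first step went away from the root, all of
it would (a path in a tree which leaves the root once does so forever, as every vertex has only one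
neighbour closer to the root), contradicting the choice of `top e`. Two edges containing `v` and its
parent are equal by linearity. So `B v = {e ∋ v : top e = v}` has at least `d_v - 1` elements, and the
`B v` are pairwise disjoint.
-/

open Finset

namespace Pool.Agent.HypU

variable {V : Type} [Fintype V] [DecidableEq V]

/-- The edges at `v` as a finset of the subtype (the same as `Ev` in `Comb`). -/
def EvT (E : Finset (Finset V)) (v : V) : Finset ↥E := univ.filter (fun e => v ∈ e.1)

omit [Fintype V] [DecidableEq V] in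
/-- the path `v → u → ... → r` -/
theorem Tree_path {T : SimpleGraph V} (hT : T.IsTree) (r u v : V) (h : T.Adj v u)
    (hd : T.dist u r ≤ T.dist v r) :
    ∃ q : T.Walk u r, (SimpleGraph.Walk.cons h q).IsPath ∧ q.length = T.dist u r := by
  classical
  obtain ⟨q, hq, hlen⟩ := hT.connected.exists_path_of_dist u r
  refine ⟨q, ?_, hlen⟩
  rw [SimpleGraph.Walk.cons_isPath_iff]
  refine ⟨hq, fun hv => ?_⟩
  have h1 : (q.takeUntil v hv).length + (q.dropUntil v hv).length = q.length := by
    rw [← SimpleGraph.Walk.length_append, SimpleGraph.Walk.take_spec]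
  have h2 : T.dist v r ≤ (q.dropUntil v hv).length := SimpleGraph.dist_le _
  have h3 : (q.takeUntil v hv).length ≠ 0 := by
    intro h0
    exact h.ne (SimpleGraph.Walk.eq_of_length_eq_zero h0).symm
  omega

omit [Fintype V] [DecidableEq V] in
theorem Tree_lt {T : SimpleGraph V} (hT : T.IsTree) (r u v : V) (h : T.Adj v u)
    (hd : T.dist u r ≤ T.dist v r) : T.dist u r < T.dist v r := by
  obtain ⟨q, hq, hlen⟩ := Tree_path hT r u v h hd
  obtain ⟨p, hp, hplen⟩ := hT.connected.exists_path_of_dist v r
  have h1 := (hT.isAcyclic.subsingleton_path v r).elim ⟨p, hp⟩ ⟨_, hq⟩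
  have h2 : p = SimpleGraph.Walk.cons h q := congrArg Subtype.val h1
  rw [h2, SimpleGraph.Walk.length_cons] at hplen
  omega

omit [Fintype V] [DecidableEq V] in
theorem Tree_unique {T : SimpleGraph V} (hT : T.IsTree) (r u u' v : V) (h : T.Adj v u)
    (h' : T.Adj v u') (hd : T.dist u r ≤ T.dist v r) (hd' : T.dist u' r ≤ T.dist v r) :
    u = u' := by
  obtain ⟨q, hq, _⟩ := Tree_path hT r u v h hd
  obtain ⟨q', hq', _⟩ := Tree_path hT r u' v h' hd'
  have h1 := (hT.isAcyclic.subsingleton_path v r).elim ⟨_, hq⟩ ⟨_, hq'⟩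
  have h2 : SimpleGraph.Walk.cons h q = SimpleGraph.Walk.cons h' q' := congrArg Subtype.val h1
  injection h2

omit [Fintype V] [DecidableEq V] in
theorem Tree_away {T : SimpleGraph V} (hT : T.IsTree) (r : V) (e : Set V) {x a : ↥e}
    (p : (T.induce e).Walk x a) (hp : p.IsPath) (y : ↥e) (hy : T.Adj (y : V) (x : V))
    (hd : T.dist (y : V) r < T.dist (x : V) r) (hny : y ∉ p.support) :
    T.dist (x : V) r ≤ T.dist (a : V) r := by
  induction p generalizing y with
  | nil => exact le_rfl
  | @cons x x' a h p' ih =>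
    rw [SimpleGraph.Walk.cons_isPath_iff] at hp
    have hadj : T.Adj (x : V) (x' : V) := h
    by_cases hc : T.dist (x' : V) r ≤ T.dist (x : V) r
    · exfalso
      have h1 : (x' : V) = (y : V) := Tree_unique hT r x' y x hadj hy.symm hc hd.le
      apply hny
      rw [SimpleGraph.Walk.support_cons, List.mem_cons]
      right
      rw [← Subtype.ext h1]
      exact SimpleGraph.Walk.start_mem_support p'
    · push Not at hc
      have h2 := ih hp.1 x hadj hc hp.2
      omega

omit [Fintype V] in
/-- the parent of a non-top vertex is in the edge -/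
theorem Tree_parent {T : SimpleGraph V} (hT : T.IsTree) (r : V) (e : Finset V)
    (he : (T.induce (e : Set V)).Preconnected) (a v : V) (ha : a ∈ e) (hv : v ∈ e) (hne : v ≠ a)
    (hmin : ∀ w ∈ e, T.dist a r ≤ T.dist w r) :
    ∃ u ∈ e, T.Adj v u ∧ T.dist u r < T.dist v r := by
  classical
  obtain ⟨p0⟩ := he ⟨v, hv⟩ ⟨a, ha⟩
  obtain ⟨p, hp⟩ : ∃ p : (T.induce (e : Set V)).Walk ⟨v, hv⟩ ⟨a, ha⟩, p.IsPath :=
    ⟨p0.bypass, p0.bypass_isPath⟩
  cases p with
  | nil => exact absurd rfl hne
  | @cons _ x' _ h p' =>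
    rw [SimpleGraph.Walk.cons_isPath_iff] at hp
    have hadj : T.Adj v (x' : V) := h
    refine ⟨x', x'.2, hadj, ?_⟩
    by_contra hc
    push Not at hc
    have h1 : T.dist v r < T.dist (x' : V) r := Tree_lt hT r v x' hadj.symm hc
    have h2 := Tree_away hT r (e : Set V) p' hp.1 ⟨v, hv⟩ hadj h1 hp.2
    have h3 := hmin v hv
    have h4 : T.dist ((⟨a, ha⟩ : ↥(e : Set V)) : V) r = T.dist a r := rfl
    rw [h4] at h2
    omega

theorem acyc_of_hypertree (E : Finset (Finset V)) (hT : IsHypertree E) (hL : IsLinear E)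
    (hne : ∀ e ∈ E, e.Nonempty) : ∃ B : V → Finset ↥E, Acyc (EvT E) B := by
  classical
  obtain ⟨T, hT, hC⟩ := hT
  obtain ⟨r⟩ := hT.connected.nonempty
  have htop : ∀ e : ↥E, ∃ a ∈ e.1, ∀ w ∈ e.1, T.dist a r ≤ T.dist w r := fun e =>
    Finset.exists_min_image e.1 (fun w => T.dist w r) (hne e.1 e.2)
  choose top htop1 htop2 using htop
  refine ⟨fun v => univ.filter (fun e => v ∈ e.1 ∧ top e = v), ?_, ?_⟩
  · intro v _
    have hsub : univ.filter (fun e : ↥E => v ∈ e.1 ∧ top e = v) ⊆ EvT E v := by
      intro e he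
      rw [mem_filter] at he
      unfold EvT
      rw [mem_filter]
      exact ⟨mem_univ _, he.2.1⟩
    refine ⟨hsub, ?_⟩
    have h1 : (EvT E v \ univ.filter (fun e : ↥E => v ∈ e.1 ∧ top e = v)).card ≤ 1 := by
      rw [Finset.card_le_one]
      intro e he f hf
      rw [mem_sdiff] at he hf
      unfold EvT at he hf
      rw [mem_filter, mem_filter] at he hf
      have hev : v ∈ e.1 := he.1.2
      have hfv : v ∈ f.1 := hf.1.2
      have hetop : v ≠ top e := fun h => he.2 ⟨mem_univ _, hev, h.symm⟩
      have hftop : v ≠ top f := fun h => hf.2 ⟨mem_univ _, hfv, h.symm⟩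
      obtain ⟨u, hu, hadj, hd⟩ := Tree_parent hT r e.1 (hC e.1 e.2) (top e) v (htop1 e) hev hetop
        (htop2 e)
      obtain ⟨u', hu', hadj', hd'⟩ := Tree_parent hT r f.1 (hC f.1 f.2) (top f) v (htop1 f) hfv
        hftop (htop2 f)
      have huu : u = u' := Tree_unique hT r u u' v hadj hadj' hd.le hd'.le
      by_contra hne'
      have h3 := hL e.1 e.2 f.1 f.2 (fun h => hne' (Subtype.ext h))
      rw [Finset.card_le_one] at h3
      have h4 := h3 v (mem_inter.2 ⟨hev, hfv⟩) u (mem_inter.2 ⟨hu, by rw [huu]; exact hu'⟩)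
      exact hadj.ne h4
    have h2 := Finset.card_sdiff_add_card_eq_card hsub
    show (EvT E v).card ≤ (univ.filter (fun e : ↥E => v ∈ e.1 ∧ top e = v)).card + 1
    omega
  · intro v w hvw _ _
    rw [Finset.disjoint_left]
    intro e he hf
    rw [mem_filter] at he hf
    exact hvw (he.2.2.symm.trans hf.2.2)

end Pool.Agent.HypU
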