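import Mathlib
import Pool.Agent.HypU.Defs

/-!
# HYP: module Pos — positivity, degree, the first coefficient
-/

open Finset PowerSeries

namespace Pool.Agent.HypU

variable {ι κ : Type} [DecidableEq ι] [Fintype κ]

theorem Pos.coeff_rec {A : κ → Finset ι} {p : ι → ℝ} {Z : Finset ι → PowerSeries ℝ}
    (hZ : Rec A p Z) (F : Finset ι) (e : ι) (he : e ∈ F) (n : ℕ) :
    coeff n (Z F) = p e * coeff n (Z (F.erase e)) + coeff n (PowerSeries.X * Z (F.erase e)) +
      ∑ v ∈ Thr A e F, (if (A v).card - 1 ≤ n then coeff (n - ((A v).card - 1)) (Z (F \ A v))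
        else 0) := by
  rw [hZ.2 F e he, map_add, add_mul, map_add, coeff_C_mul, map_sum]
  congr 1
  apply Finset.sum_congr rfl
  intro v _
  rw [coeff_X_pow_mul']

theorem coeff_nonneg {A : κ → Finset ι} {p : ι → ℝ} {Z : Finset ι → PowerSeries ℝ}
    (hZ : Rec A p Z) (hp : ∀ e, 0 < p e) (F : Finset ι) (n : ℕ) : 0 ≤ coeff n (Z F) := by
  suffices h : ∀ N : ℕ, ∀ F : Finset ι, F.card = N → ∀ n, 0 ≤ coeff n (Z F) from h _ F rfl n
  intro N
  induction N using Nat.strong_induction_on with
  | _ N ih =>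
    intro F hF n
    rcases F.eq_empty_or_nonempty with rfl | ⟨e, he⟩
    · rw [hZ.1, coeff_one]
      split_ifs <;> norm_num
    · have hc : (F.erase e).card < N := by
        rw [Finset.card_erase_of_mem he, hF]
        have : 0 < F.card := Finset.card_pos.2 ⟨e, he⟩
        omega
      rw [Pos.coeff_rec hZ F e he n]
      have h1 := ih _ hc (F.erase e) rfl
      have h2 : 0 ≤ coeff n (PowerSeries.X * Z (F.erase e)) := by
        rcases n with _ | n
        · rw [coeff_zero_X_mul]
        · rw [coeff_succ_X_mul]; exact h1 n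
      have h3 : 0 ≤ ∑ v ∈ Thr A e F, (if (A v).card - 1 ≤ n then
          coeff (n - ((A v).card - 1)) (Z (F \ A v)) else 0) := by
        apply Finset.sum_nonneg
        intro v hv
        simp only [Thr, Finset.mem_filter, Finset.mem_univ, true_and] at hv
        split_ifs
        · refine ih _ ?_ (F \ A v) rfl _
          have h4 : F \ A v ⊂ F := by
            refine Finset.ssubset_iff_subset_ne.2 ⟨Finset.sdiff_subset, fun h => ?_⟩
            have := h ▸ he
            exact (Finset.mem_sdiff.1 this).2 hv.2.1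
          rw [← hF]
          exact Finset.card_lt_card h4
        · exact le_rfl
      have h5 := mul_nonneg (hp e).le (h1 n)
      linarith

theorem Pos.sum_nonneg {A : κ → Finset ι} {p : ι → ℝ} {Z : Finset ι → PowerSeries ℝ}
    (hZ : Rec A p Z) (hp : ∀ e, 0 < p e) (F : Finset ι) (e : ι) (n : ℕ) :
    0 ≤ ∑ v ∈ Thr A e F, (if (A v).card - 1 ≤ n then
          coeff (n - ((A v).card - 1)) (Z (F \ A v)) else 0) := by
  apply Finset.sum_nonneg
  intro v _
  split_ifs
  · exact coeff_nonneg hZ hp _ _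
  · exact le_rfl

theorem Pos.X_nonneg {A : κ → Finset ι} {p : ι → ℝ} {Z : Finset ι → PowerSeries ℝ}
    (hZ : Rec A p Z) (hp : ∀ e, 0 < p e) (F : Finset ι) (n : ℕ) :
    0 ≤ coeff n (PowerSeries.X * Z F) := by
  rcases n with _ | n
  · rw [coeff_zero_X_mul]
  · rw [coeff_succ_X_mul]; exact coeff_nonneg hZ hp _ _

/-- monotonicity: `Z F ≥ p_e Z (F - e)` and `Z F ≥ X Z (F - e)` coefficientwise -/
theorem coeff_erase_le {A : κ → Finset ι} {p : ι → ℝ} {Z : Finset ι → PowerSeries ℝ}
    (hZ : Rec A p Z) (hp : ∀ e, 0 < p e) (F : Finset ι) (e : ι) (he : e ∈ F) (n : ℕ) :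
    p e * coeff n (Z (F.erase e)) ≤ coeff n (Z F) := by
  rw [Pos.coeff_rec hZ F e he n]
  have := Pos.sum_nonneg hZ hp F e n
  have := Pos.X_nonneg hZ hp (F.erase e) n
  linarith

theorem coeff_X_erase_le {A : κ → Finset ι} {p : ι → ℝ} {Z : Finset ι → PowerSeries ℝ}
    (hZ : Rec A p Z) (hp : ∀ e, 0 < p e) (F : Finset ι) (e : ι) (he : e ∈ F) (n : ℕ) :
    coeff n (Z (F.erase e)) ≤ coeff (n + 1) (Z F) := by
  rw [Pos.coeff_rec hZ F e he (n + 1), coeff_succ_X_mul]
  have := Pos.sum_nonneg hZ hp F e (n + 1)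
  have := mul_nonneg (hp e).le (coeff_nonneg hZ hp (F.erase e) (n + 1))
  linarith

/-- induction on `F`: `p_e` times the coefficient of `Z (F.erase e)`, and `X` times it for
`n = |F|`. -/
theorem coeff_pos {A : κ → Finset ι} {p : ι → ℝ} {Z : Finset ι → PowerSeries ℝ}
    (hZ : Rec A p Z) (hp : ∀ e, 0 < p e) (F : Finset ι) (n : ℕ) (hn : n ≤ F.card) :
    0 < coeff n (Z F) := by
  induction F using Finset.induction_on generalizing n with
  | empty =>
    rw [Finset.card_empty, Nat.le_zero] at hn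
    rw [hZ.1, hn, coeff_one, if_pos rfl]
    norm_num
  | insert e F he ih =>
    have h1 := Finset.mem_insert_self e F
    have h2 := Finset.erase_insert he
    rw [Finset.card_insert_of_notMem he] at hn
    by_cases h3 : n ≤ F.card
    · have h4 := coeff_erase_le hZ hp (insert e F) e h1 n
      rw [h2] at h4
      exact lt_of_lt_of_le (mul_pos (hp e) (ih n h3)) h4
    · obtain ⟨k, rfl⟩ : ∃ k, n = k + 1 := ⟨n - 1, by omega⟩
      have h4 := coeff_X_erase_le hZ hp (insert e F) e h1 k
      rw [h2] at h4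
      exact lt_of_lt_of_le (ih k (by omega)) h4

theorem coeff_eq_zero {A : κ → Finset ι} {p : ι → ℝ} {Z : Finset ι → PowerSeries ℝ}
    (hZ : Rec A p Z) (_hp : ∀ e, 0 < p e) (F : Finset ι) (n : ℕ) (hn : F.card < n) :
    coeff n (Z F) = 0 := by
  suffices h : ∀ N : ℕ, ∀ F : Finset ι, F.card = N → ∀ n, N < n → coeff n (Z F) = 0 from
    h _ F rfl n hn
  clear hn n F
  intro N
  induction N using Nat.strong_induction_on with
  | _ N ih =>
    intro F hF n hn
    rcases F.eq_empty_or_nonempty with rfl | ⟨e, he⟩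
    · rw [hZ.1, coeff_one, if_neg (by omega)]
    · have h0 : 0 < F.card := Finset.card_pos.2 ⟨e, he⟩
      have hce : (F.erase e).card = N - 1 := by rw [Finset.card_erase_of_mem he, hF]
      rw [Pos.coeff_rec hZ F e he n]
      obtain ⟨k, rfl⟩ : ∃ k, n = k + 1 := ⟨n - 1, by omega⟩
      rw [coeff_succ_X_mul, ih (N - 1) (by omega) _ hce (k + 1) (by omega),
        ih (N - 1) (by omega) _ hce k (by omega), mul_zero, zero_add, zero_add]
      apply Finset.sum_eq_zero
      intro v hv
      simp only [Thr, Finset.mem_filter, Finset.mem_univ, true_and] at hv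
      have h1 : (F \ A v).card = N - (A v).card := by
        rw [Finset.card_sdiff_of_subset hv.2.2, hF]
      have h2 : (A v).card ≤ N := by rw [← hF]; exact Finset.card_le_card hv.2.2
      rw [if_pos (by omega)]
      exact ih _ (by omega) _ h1 _ (by omega)

/-- `a_1 ≥ λ a_0`: from the recursion `a_0(F) = p_e a_0(F - e)` (the other terms have a factor
`X ^ (d - 1)`, `d ≥ 2`) and `a_1(F) ≥ p_e a_1(F - e) + a_0(F - e)`. -/
theorem coeff_one_ge {A : κ → Finset ι} {p : ι → ℝ} {Z : Finset ι → PowerSeries ℝ}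
    (hZ : Rec A p Z) (hp : ∀ e, 0 < p e) (F : Finset ι) :
    (∑ e ∈ F, 1 / p e) * coeff 0 (Z F) ≤ coeff 1 (Z F) := by
  induction F using Finset.induction_on with
  | empty =>
    rw [Finset.sum_empty, zero_mul]
    exact coeff_nonneg hZ hp _ _
  | insert e F he ih =>
    have h1 := Finset.mem_insert_self e F
    have h2 := Finset.erase_insert he
    have h3 := Pos.coeff_rec hZ (insert e F) e h1 0
    have h4 := Pos.coeff_rec hZ (insert e F) e h1 1
    rw [h2] at h3 h4
    have h5 : ∑ v ∈ Thr A e (insert e F), (if (A v).card - 1 ≤ 0 then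
          coeff (0 - ((A v).card - 1)) (Z (insert e F \ A v)) else 0) = 0 := by
      apply Finset.sum_eq_zero
      intro v hv
      simp only [Thr, Finset.mem_filter, Finset.mem_univ, true_and] at hv
      rw [if_neg (by omega)]
    rw [h5, coeff_zero_X_mul, add_zero, add_zero] at h3
    have h6 := Pos.sum_nonneg hZ hp (insert e F) e 1
    have h7 : coeff 1 (PowerSeries.X * Z F) = coeff 0 (Z F) := coeff_succ_X_mul 0 _
    rw [h7] at h4
    rw [Finset.sum_insert he, h3, h4]
    have h8 := (hp e).ne'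
    have h9 : (1 / p e + ∑ e ∈ F, 1 / p e) * (p e * coeff 0 (Z F)) =
        coeff 0 (Z F) + p e * ((∑ e ∈ F, 1 / p e) * coeff 0 (Z F)) := by
      field_simp
    rw [h9]
    have h10 := mul_le_mul_of_nonneg_left ih (hp e).le
    linarith

end Pool.Agent.HypU
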