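import Mathlib
import Pool.Agent.HypU.Pos

/-!
# HYP: module Coef — the upper bound `j a_j ≤ (17/16) λ a_{j-1}`

For `F` put `Λ(F) = ∑_{e ∈ F} 1/p_e + ∑_{v : 2 ≤ |A v|, A v ⊆ F} ∑_{c ∈ B v} 1/(16 p_c)`.
Claim: `Z(F)' ≤ Λ(F) Z(F)` coefficientwise, by strong induction on `|F|`: differentiate the recursion
for some `e ∈ F`:
`Z(F)' = Z(F-e) + (p_e + X) Z(F-e)' + ∑_v [(d_v-1) X^(d_v-2) Z(F \ A v) + X^(d_v-1) Z(F \ A v)']`.
The terms with `'` on the right are at most `Λ(F - e)` times the corresponding terms of `Z(F)`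
(as `Λ(F \ A v) ≤ Λ(F - e)`), `Z(F-e) ≤ Z(F)/p_e`, and for every `c ∈ B v`, choosing `f ∈ A v`,
`f ≠ c`: `Z(F) ≥ p_f p_c X^(d_v-2) Z(F \ A v) ≥ 16 p_c X^(d_v-2) Z(F \ A v)` (remove the points of
`A v` one by one, with the factor `p` for `f, c` and the factor `X` for the others), so
`(d_v - 1) X^(d_v-2) Z(F \ A v) ≤ ∑_{c ∈ B v} 1/(16 p_c) Z(F)`. Finally `Λ(univ) ≤ (17/16) λ` by
disjointness of the `B v`. (Coefficient form: `(n+1) a_{n+1} ≤ Λ a_n`.)
-/

open Finset PowerSeries

namespace Pool.Agent.HypU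

variable {ι κ : Type} [DecidableEq ι] [Fintype κ]

/-- shared vertices inside `F` -/
def Coef_Sh (A : κ → Finset ι) (F : Finset ι) : Finset κ :=
  univ.filter (fun v => 2 ≤ (A v).card ∧ A v ⊆ F)

/-- the weight of a shared vertex -/
noncomputable def Coef_w (B : κ → Finset ι) (p : ι → ℝ) (v : κ) : ℝ :=
  ∑ c ∈ B v, 1 / (16 * p c)

/-- the quantity `Λ(F)` -/
noncomputable def Coef_L (A B : κ → Finset ι) (p : ι → ℝ) (F : Finset ι) : ℝ :=
  ∑ e ∈ F, 1 / p e + ∑ v ∈ Coef_Sh A F, Coef_w B p v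

omit [DecidableEq ι] [Fintype κ] in
theorem Coef_w_nonneg (B : κ → Finset ι) {p : ι → ℝ} (hp : ∀ e, 0 < p e) (v : κ) :
    0 ≤ Coef_w B p v := by
  unfold Coef_w
  refine Finset.sum_nonneg (fun c _ => ?_)
  have := hp c
  positivity

theorem Coef_L_nonneg (A B : κ → Finset ι) {p : ι → ℝ} (hp : ∀ e, 0 < p e) (F : Finset ι) :
    0 ≤ Coef_L A B p F := by
  unfold Coef_L
  refine add_nonneg (Finset.sum_nonneg (fun e _ => ?_))
    (Finset.sum_nonneg (fun v _ => Coef_w_nonneg B hp v))
  have := hp e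
  positivity

theorem Coef_L_mono (A B : κ → Finset ι) {p : ι → ℝ} (hp : ∀ e, 0 < p e) {F G : Finset ι}
    (h : F ⊆ G) : Coef_L A B p F ≤ Coef_L A B p G := by
  unfold Coef_L
  refine add_le_add (Finset.sum_le_sum_of_subset_of_nonneg h (fun e _ _ => ?_))
    (Finset.sum_le_sum_of_subset_of_nonneg ?_ (fun v _ _ => Coef_w_nonneg B hp v))
  · have := hp e
    positivity
  · intro v hv
    unfold Coef_Sh at hv ⊢
    rw [Finset.mem_filter] at hv ⊢
    exact ⟨hv.1, hv.2.1, hv.2.2.trans h⟩

theorem Coef_L_erase (A B : κ → Finset ι) {p : ι → ℝ} (F : Finset ι) (e : ι) (he : e ∈ F) :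
    Coef_L A B p F = Coef_L A B p (F.erase e) + 1 / p e + ∑ v ∈ Thr A e F, Coef_w B p v := by
  classical
  unfold Coef_L
  rw [← Finset.add_sum_erase F _ he]
  have h1 : Coef_Sh A F = Coef_Sh A (F.erase e) ∪ Thr A e F := by
    ext v
    unfold Coef_Sh Thr
    simp only [Finset.mem_union, Finset.mem_filter, Finset.mem_univ, true_and]
    constructor
    · rintro ⟨h2, h3⟩
      by_cases hev : e ∈ A v
      · exact Or.inr ⟨h2, hev, h3⟩
      · refine Or.inl ⟨h2, ?_⟩
        rw [Finset.subset_erase]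
        exact ⟨h3, hev⟩
    · rintro (⟨h2, h3⟩ | ⟨h2, _, h3⟩)
      · exact ⟨h2, h3.trans (Finset.erase_subset e F)⟩
      · exact ⟨h2, h3⟩
  have h2 : Disjoint (Coef_Sh A (F.erase e)) (Thr A e F) := by
    rw [Finset.disjoint_left]
    intro v hv hv'
    unfold Coef_Sh at hv
    unfold Thr at hv'
    rw [Finset.mem_filter] at hv hv'
    have := hv.2.2 hv'.2.2.1
    simp at this
  rw [h1, Finset.sum_union h2]
  ring

theorem Coef_remove {A : κ → Finset ι} {p : ι → ℝ} {Z : Finset ι → PowerSeries ℝ}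
    (hZ : Rec A p Z) (hp : ∀ e, 0 < p e) (F : Finset ι) (T : Finset ι) :
    T ⊆ F → ∀ m : ℕ, coeff m (Z (F \ T)) ≤ coeff (m + T.card) (Z F) := by
  classical
  induction T using Finset.induction_on with
  | empty =>
    intro _ m
    simp
  | insert a T ha ih =>
    intro hT m
    have hTF : T ⊆ F := (Finset.subset_insert a T).trans hT
    have haF : a ∈ F \ T := by
      rw [Finset.mem_sdiff]
      exact ⟨hT (Finset.mem_insert_self a T), ha⟩
    have h1 : F \ insert a T = (F \ T).erase a := by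
      ext x
      simp only [Finset.mem_sdiff, Finset.mem_insert, Finset.mem_erase]
      tauto
    rw [h1, Finset.card_insert_of_notMem ha]
    have h2 := coeff_X_erase_le hZ hp (F \ T) a haF m
    have h3 := ih hTF (m + 1)
    have h4 : m + (T.card + 1) = m + 1 + T.card := by ring
    rw [h4]
    exact h2.trans h3

theorem Coef_two {A : κ → Finset ι} {p : ι → ℝ} {Z : Finset ι → PowerSeries ℝ}
    (hZ : Rec A p Z) (hp : ∀ e, 16 ≤ p e) (F : Finset ι) (T : Finset ι) (hT : T ⊆ F)
    (hT2 : 2 ≤ T.card) (c : ι) (hc : c ∈ T) (m : ℕ) :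
    coeff m (Z (F \ T)) ≤ 1 / (16 * p c) * coeff (m + (T.card - 2)) (Z F) := by
  classical
  have hp0 : ∀ e, 0 < p e := fun e => by linarith [hp e]
  obtain ⟨f, hf⟩ : ∃ f, f ∈ T.erase c := by
    have : 0 < (T.erase c).card := by
      rw [Finset.card_erase_of_mem hc]
      omega
    exact Finset.card_pos.1 this
  rw [Finset.mem_erase] at hf
  have hT' : (T.erase c).erase f ⊆ F :=
    ((Finset.erase_subset f _).trans (Finset.erase_subset c T)).trans hT
  have h1 := Coef_remove hZ hp0 F ((T.erase c).erase f) hT' m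
  have hcard : ((T.erase c).erase f).card = T.card - 2 := by
    rw [Finset.card_erase_of_mem (by rw [Finset.mem_erase]; exact hf), Finset.card_erase_of_mem hc]
    omega
  rw [hcard] at h1
  set G := F \ ((T.erase c).erase f) with hG
  have hcG : c ∈ G := by
    rw [hG, Finset.mem_sdiff]
    refine ⟨hT hc, ?_⟩
    simp
  have hfG : f ∈ G.erase c := by
    rw [Finset.mem_erase, hG, Finset.mem_sdiff]
    refine ⟨hf.1, hT hf.2, ?_⟩
    simp
  have h2 : (G.erase c).erase f = F \ T := by
    ext x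
    simp only [hG, Finset.mem_sdiff, Finset.mem_erase]
    constructor
    · rintro ⟨h3, h4, h5, h6⟩
      refine ⟨h5, ?_⟩
      intro h7
      exact h6 ⟨h3, h4, h7⟩
    · rintro ⟨h3, h4⟩
      refine ⟨?_, ?_, h3, ?_⟩
      · rintro rfl
        exact h4 hf.2
      · rintro rfl
        exact h4 hc
      · rintro ⟨_, _, h5⟩
        exact h4 h5
  have h3 := coeff_erase_le hZ hp0 G c hcG m
  have h4 := coeff_erase_le hZ hp0 (G.erase c) f hfG m
  rw [h2] at h4
  have h5 : 0 ≤ coeff m (Z (F \ T)) := coeff_nonneg hZ hp0 _ _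
  have hpc := hp0 c
  have hpf := hp f
  have h6 : 16 * coeff m (Z (F \ T)) ≤ coeff m (Z (G.erase c)) :=
    le_trans (mul_le_mul_of_nonneg_right hpf h5) h4
  have h7 : p c * (16 * coeff m (Z (F \ T))) ≤ coeff m (Z G) :=
    le_trans (mul_le_mul_of_nonneg_left h6 hpc.le) h3
  have h8 : 16 * p c * coeff m (Z (F \ T)) ≤ coeff (m + (T.card - 2)) (Z F) := by
    have : 16 * p c * coeff m (Z (F \ T)) = p c * (16 * coeff m (Z (F \ T))) := by ring
    rw [this]
    exact h7.trans h1
  rw [div_mul_eq_mul_div, one_mul, le_div_iff₀ (by positivity)]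
  linarith

theorem Coef_vertex {A B : κ → Finset ι} {p : ι → ℝ} {Z : Finset ι → PowerSeries ℝ}
    (hZ : Rec A p Z) (hp : ∀ e, 16 ≤ p e) (hB : Acyc A B) (F : Finset ι) (v : κ)
    (hv2 : 2 ≤ (A v).card) (hvF : A v ⊆ F) (m : ℕ) :
    (((A v).card - 1 : ℕ) : ℝ) * coeff m (Z (F \ A v))
      ≤ Coef_w B p v * coeff (m + ((A v).card - 2)) (Z F) := by
  have hp0 : ∀ e, 0 < p e := fun e => by linarith [hp e]
  obtain ⟨hBA, hBc⟩ := hB.1 v hv2
  have h1 : 0 ≤ coeff m (Z (F \ A v)) := coeff_nonneg hZ hp0 _ _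
  unfold Coef_w
  rw [Finset.sum_mul]
  calc (((A v).card - 1 : ℕ) : ℝ) * coeff m (Z (F \ A v))
      ≤ ((B v).card : ℝ) * coeff m (Z (F \ A v)) := by
        refine mul_le_mul_of_nonneg_right ?_ h1
        exact_mod_cast (by omega : (A v).card - 1 ≤ (B v).card)
    _ = ∑ c ∈ B v, coeff m (Z (F \ A v)) := by
        rw [Finset.sum_const, nsmul_eq_mul]
    _ ≤ _ := Finset.sum_le_sum (fun c hc => Coef_two hZ hp F (A v) hvF hv2 c (hBA hc) m)

theorem Coef_term (Λ : ℝ) (f : PowerSeries ℝ) (k n : ℕ)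
    (h : ∀ m : ℕ, ((m : ℝ) + 1) * coeff (m + 1) f ≤ Λ * coeff m f) :
    ((n : ℝ) + 1) * coeff (n + 1) (X ^ k * f)
      ≤ Λ * coeff n (X ^ k * f) + (k : ℝ) * coeff (n + 1) (X ^ k * f) := by
  rw [PowerSeries.coeff_X_pow_mul', PowerSeries.coeff_X_pow_mul']
  by_cases h1 : k ≤ n
  · rw [if_pos h1, if_pos (by omega)]
    have h2 := h (n - k)
    have h3 : n + 1 - k = n - k + 1 := by omega
    rw [h3]
    have h4 : ((n - k : ℕ) : ℝ) = (n : ℝ) - k := by
      rw [Nat.cast_sub h1]
    rw [h4] at h2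
    linarith
  · by_cases h2 : k = n + 1
    · subst h2
      rw [if_pos (le_refl _), if_neg h1]
      push_cast
      simp
    · rw [if_neg (by omega), if_neg h1]
      simp

theorem Coef_main {A B : κ → Finset ι} {p : ι → ℝ} {Z : Finset ι → PowerSeries ℝ}
    (hZ : Rec A p Z) (hp : ∀ e, 16 ≤ p e) (hB : Acyc A B) (F : Finset ι) :
    ∀ n : ℕ, ((n : ℝ) + 1) * coeff (n + 1) (Z F) ≤ Coef_L A B p F * coeff n (Z F) := by
  classical
  have hp0 : ∀ e, 0 < p e := fun e => by linarith [hp e]
  induction F using Finset.strongInduction with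
  | H F ih =>
    intro n
    rcases F.eq_empty_or_nonempty with hF | ⟨e, he⟩
    · subst hF
      have h1 : coeff (n + 1) (Z (∅ : Finset ι)) = 0 := by
        rw [hZ.1, PowerSeries.coeff_one]
        simp
      rw [h1, mul_zero]
      exact mul_nonneg (Coef_L_nonneg A B hp0 _) (coeff_nonneg hZ hp0 _ _)
    · set L' := Coef_L A B p (F.erase e) with hL'
      have ih1 := ih (F.erase e) (Finset.erase_ssubset he)
      have hL'0 : 0 ≤ L' := Coef_L_nonneg A B hp0 _
      have hrec := hZ.2 F e he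
      have hco : ∀ m : ℕ, coeff m (Z F) = p e * coeff m (Z (F.erase e))
          + coeff m (X ^ 1 * Z (F.erase e))
          + ∑ v ∈ Thr A e F, coeff m (X ^ ((A v).card - 1) * Z (F \ A v)) := by
        intro m
        rw [hrec, map_add, add_mul, map_add, PowerSeries.coeff_C_mul, map_sum, pow_one]
      have hpe := hp0 e
      -- first term
      have t1 : ((n : ℝ) + 1) * (p e * coeff (n + 1) (Z (F.erase e)))
          ≤ L' * (p e * coeff n (Z (F.erase e))) := by
        have := mul_le_mul_of_nonneg_left (ih1 n) hpe.le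
        calc ((n : ℝ) + 1) * (p e * coeff (n + 1) (Z (F.erase e)))
            = p e * (((n : ℝ) + 1) * coeff (n + 1) (Z (F.erase e))) := by ring
          _ ≤ p e * (L' * coeff n (Z (F.erase e))) := this
          _ = L' * (p e * coeff n (Z (F.erase e))) := by ring
      -- second term
      have t2 : ((n : ℝ) + 1) * coeff (n + 1) (X ^ 1 * Z (F.erase e))
          ≤ L' * coeff n (X ^ 1 * Z (F.erase e)) + 1 / p e * coeff n (Z F) := by
        have h1 := Coef_term L' (Z (F.erase e)) 1 n ih1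
        have h2 : coeff (n + 1) (X ^ 1 * Z (F.erase e)) = coeff n (Z (F.erase e)) := by
          rw [PowerSeries.coeff_X_pow_mul', if_pos (by omega)]
          simp
        have h3 := coeff_erase_le hZ hp0 F e he n
        have h4 : coeff n (Z (F.erase e)) ≤ 1 / p e * coeff n (Z F) := by
          rw [div_mul_eq_mul_div, one_mul, le_div_iff₀ hpe]
          linarith
        have h5 : ((1 : ℕ) : ℝ) * coeff (n + 1) (X ^ 1 * Z (F.erase e))
            ≤ 1 / p e * coeff n (Z F) := by
          rw [h2, Nat.cast_one, one_mul]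
          exact h4
        exact le_trans h1 (add_le_add (le_refl _) h5)
      -- third term
      have t3 : ∀ v ∈ Thr A e F,
          ((n : ℝ) + 1) * coeff (n + 1) (X ^ ((A v).card - 1) * Z (F \ A v))
          ≤ L' * coeff n (X ^ ((A v).card - 1) * Z (F \ A v)) + Coef_w B p v * coeff n (Z F) := by
        intro v hv
        unfold Thr at hv
        rw [Finset.mem_filter] at hv
        obtain ⟨_, hv2, hev, hvF⟩ := hv
        have hss : F \ A v ⊂ F := by
          refine ⟨Finset.sdiff_subset, ?_⟩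
          intro h
          have := h he
          rw [Finset.mem_sdiff] at this
          exact this.2 hev
        have hsub : F \ A v ⊆ F.erase e := by
          intro x hx
          rw [Finset.mem_sdiff] at hx
          rw [Finset.mem_erase]
          refine ⟨?_, hx.1⟩
          rintro rfl
          exact hx.2 hev
        have hLv : Coef_L A B p (F \ A v) ≤ L' := Coef_L_mono A B hp0 hsub
        have h0 : ∀ m : ℕ, ((m : ℝ) + 1) * coeff (m + 1) (Z (F \ A v))
            ≤ L' * coeff m (Z (F \ A v)) := by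
          intro m
          refine le_trans (ih _ hss m) ?_
          exact mul_le_mul_of_nonneg_right hLv (coeff_nonneg hZ hp0 _ _)
        have h1 := Coef_term L' (Z (F \ A v)) ((A v).card - 1) n h0
        have h2 : (((A v).card - 1 : ℕ) : ℝ) * coeff (n + 1) (X ^ ((A v).card - 1) * Z (F \ A v))
            ≤ Coef_w B p v * coeff n (Z F) := by
          rw [PowerSeries.coeff_X_pow_mul']
          by_cases h3 : (A v).card - 1 ≤ n + 1
          · rw [if_pos h3]
            have h4 := Coef_vertex hZ hp hB F v hv2 hvF (n + 1 - ((A v).card - 1))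
            have h5 : n + 1 - ((A v).card - 1) + ((A v).card - 2) = n := by omega
            rw [h5] at h4
            exact h4
          · rw [if_neg h3, mul_zero]
            exact mul_nonneg (Coef_w_nonneg B hp0 v) (coeff_nonneg hZ hp0 _ _)
        exact le_trans h1 (add_le_add (le_refl _) h2)
      have t3' := Finset.sum_le_sum t3
      rw [← Finset.mul_sum, Finset.sum_add_distrib, ← Finset.mul_sum, ← Finset.sum_mul] at t3'
      have hL := Coef_L_erase A B (p := p) F e he
      have e1 := hco (n + 1)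
      have e0 := hco n
      calc ((n : ℝ) + 1) * coeff (n + 1) (Z F)
          = ((n : ℝ) + 1) * (p e * coeff (n + 1) (Z (F.erase e)))
            + ((n : ℝ) + 1) * coeff (n + 1) (X ^ 1 * Z (F.erase e))
            + ((n : ℝ) + 1) * ∑ v ∈ Thr A e F,
              coeff (n + 1) (X ^ ((A v).card - 1) * Z (F \ A v)) := by
            rw [e1]
            ring
        _ ≤ L' * (p e * coeff n (Z (F.erase e)))
            + (L' * coeff n (X ^ 1 * Z (F.erase e)) + 1 / p e * coeff n (Z F))
            + (L' * ∑ v ∈ Thr A e F, coeff n (X ^ ((A v).card - 1) * Z (F \ A v))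
              + (∑ v ∈ Thr A e F, Coef_w B p v) * coeff n (Z F)) :=
            add_le_add (add_le_add t1 t2) t3'
        _ = L' * (p e * coeff n (Z (F.erase e)) + coeff n (X ^ 1 * Z (F.erase e))
              + ∑ v ∈ Thr A e F, coeff n (X ^ ((A v).card - 1) * Z (F \ A v)))
            + (1 / p e + ∑ v ∈ Thr A e F, Coef_w B p v) * coeff n (Z F) := by ring
        _ = L' * coeff n (Z F)
            + (1 / p e + ∑ v ∈ Thr A e F, Coef_w B p v) * coeff n (Z F) := by rw [← e0]
        _ = Coef_L A B p F * coeff n (Z F) := by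
            rw [hL, ← hL']
            ring

theorem Coef_L_univ [Fintype ι] {A B : κ → Finset ι} {p : ι → ℝ} (hp : ∀ e, 0 < p e)
    (hB : Acyc A B) : Coef_L A B p univ ≤ 17 / 16 * ∑ e, 1 / p e := by
  classical
  have h1 : ∑ v ∈ Coef_Sh A univ, Coef_w B p v ≤ 1 / 16 * ∑ e, 1 / p e := by
    unfold Coef_w
    rw [← Finset.sum_biUnion]
    · calc ∑ c ∈ (Coef_Sh A univ).biUnion B, 1 / (16 * p c)
          ≤ ∑ c, 1 / (16 * p c) :=
            Finset.sum_le_sum_of_subset_of_nonneg (Finset.subset_univ _) (fun e _ _ => by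
              have := hp e
              positivity)
        _ = 1 / 16 * ∑ e, 1 / p e := by
            rw [Finset.mul_sum]
            refine Finset.sum_congr rfl (fun e _ => ?_)
            rw [one_div_mul_one_div]
    · intro v hv w hw hvw
      have hv' : v ∈ Coef_Sh A univ := hv
      have hw' : w ∈ Coef_Sh A univ := hw
      unfold Coef_Sh at hv' hw'
      rw [Finset.mem_filter] at hv' hw'
      exact hB.2 v w hvw hv'.2.1 hw'.2.1
  unfold Coef_L
  linarith

theorem coeff_succ_le [Fintype ι] {A B : κ → Finset ι} {p : ι → ℝ} {Z : Finset ι → PowerSeries ℝ}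
    (hZ : Rec A p Z) (hp : ∀ e, 16 ≤ p e) (hB : Acyc A B) (n : ℕ) :
    ((n : ℝ) + 1) * coeff (n + 1) (Z univ) ≤ (17 / 16 * ∑ e, 1 / p e) * coeff n (Z univ) := by
  have hp0 : ∀ e, 0 < p e := fun e => by linarith [hp e]
  refine le_trans (Coef_main hZ hp hB univ n) ?_
  exact mul_le_mul_of_nonneg_right (Coef_L_univ hp0 hB) (coeff_nonneg hZ hp0 _ _)

end Pool.Agent.HypU
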