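import Mathlib
import Pool.Agent.HypU.Defs

/-!
# HYP: module Comb — the recursion for a hypergraph

`ι = ↥E`, `κ = V`, `Ev v` = the edges containing `v`, `Zp F = ∑_S X^(|F| - |S|)` over the strongly
independent sets `S` of vertices `v` with `Ev v ≠ ∅`, `Ev v ⊆ F`. Such `S` has `|S| ≤ |F|` (distinct
elements of `S` have disjoint nonempty `Ev`). Recursion at `e ∈ F`: either `S` misses `e` (then `S` is
admissible for `F - e`, `|F| - |S| = (|F - e| - |S|) + 1`), or `S ∩ e = {v}` with `Ev v ⊆ F`, and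
`S - v` is an arbitrary admissible set for `F \ Ev v`, `|F| - |S| = (|F \ Ev v| - |S - v|) +
(d_v - 1)`. The `v ∈ e` with `d_v = 1` (there are `priv E e` of them) have `Ev v = {e}`, `F \ Ev v =
F - e`, and give the term `p_e Z(F - e)`.
-/

open Finset PowerSeries

namespace Pool.Agent.HypU

variable {V : Type} [Fintype V] [DecidableEq V]

/-- The edges containing `v`. -/
def Ev (E : Finset (Finset V)) (v : V) : Finset ↥E := univ.filter (fun e => v ∈ e.1)

/-- The admissible sets for `F`. -/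
def Ind (E : Finset (Finset V)) (F : Finset ↥E) : Finset (Finset V) :=
  univ.filter (fun S => StrongIndep E S ∧ ∀ v ∈ S, (Ev E v).Nonempty ∧ Ev E v ⊆ F)

/-- The reversed independence polynomial. -/
noncomputable def Zp (E : Finset (Finset V)) (F : Finset ↥E) : PowerSeries ℝ :=
  ∑ S ∈ Ind E F, PowerSeries.X ^ (F.card - S.card)

theorem Comb_mem_Ev {E : Finset (Finset V)} {v : V} {e : ↥E} : e ∈ Ev E v ↔ v ∈ e.1 := by
  unfold Ev
  rw [mem_filter]
  exact ⟨fun h => h.2, fun h => ⟨mem_univ _, h⟩⟩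

theorem Ev_card (E : Finset (Finset V)) (v : V) : (Ev E v).card = deg E v := by
  unfold deg
  have h : (Ev E v).map ⟨Subtype.val, Subtype.val_injective⟩ = E.filter (fun e => v ∈ e) := by
    ext e
    rw [mem_map, mem_filter]
    constructor
    · rintro ⟨e', he', rfl⟩
      exact ⟨e'.2, Comb_mem_Ev.1 he'⟩
    · rintro ⟨h1, h2⟩
      exact ⟨⟨e, h1⟩, Comb_mem_Ev.2 h2, rfl⟩
  rw [← h, card_map]

theorem Comb_mem_Ind {E : Finset (Finset V)} {F : Finset ↥E} {S : Finset V} :
    S ∈ Ind E F ↔ StrongIndep E S ∧ ∀ v ∈ S, (Ev E v).Nonempty ∧ Ev E v ⊆ F := by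
  unfold Ind
  rw [mem_filter]
  exact ⟨fun h => h.2, fun h => ⟨mem_univ _, h⟩⟩

/-- two members of a strongly independent set have no common edge -/
theorem Comb_eq {E : Finset (Finset V)} {S : Finset V} (hS : StrongIndep E S) {v w : V}
    (hv : v ∈ S) (hw : w ∈ S) {e : ↥E} (h1 : e ∈ Ev E v) (h2 : e ∈ Ev E w) : v = w := by
  have h3 := hS e.1 e.2
  rw [Finset.card_le_one] at h3
  exact h3 v (mem_inter.2 ⟨hv, Comb_mem_Ev.1 h1⟩) w (mem_inter.2 ⟨hw, Comb_mem_Ev.1 h2⟩)

theorem card_le_of_mem_Ind (E : Finset (Finset V)) (F : Finset ↥E) (S : Finset V) (hS : S ∈ Ind E F) :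
    S.card ≤ F.card := by
  classical
  rw [Comb_mem_Ind] at hS
  obtain ⟨h1, h2⟩ := hS
  rcases S.eq_empty_or_nonempty with h0 | h0
  · rw [h0]; simp
  obtain ⟨v0, hv0⟩ := h0
  obtain ⟨e0, he0⟩ := (h2 v0 hv0).1
  have hch : ∀ v : V, ∃ e : ↥E, v ∈ S → e ∈ Ev E v := by
    intro v
    by_cases hv : v ∈ S
    · obtain ⟨e, he⟩ := (h2 v hv).1
      exact ⟨e, fun _ => he⟩
    · exact ⟨e0, fun h => absurd h hv⟩
  choose f hf using hch
  apply Finset.card_le_card_of_injOn f
  · intro v hv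
    exact (h2 v hv).2 (hf v hv)
  · intro v hv w hw hvw
    have a1 := hf v hv
    have a2 := hf w hw
    rw [hvw] at a1
    exact Comb_eq h1 hv hw a1 a2

theorem Comb_zero (E : Finset (Finset V)) : Zp E ∅ = 1 := by
  have h : Ind E ∅ = {∅} := by
    ext S
    rw [Comb_mem_Ind, mem_singleton]
    constructor
    · rintro ⟨_, h2⟩
      rw [Finset.eq_empty_iff_forall_notMem]
      intro v hv
      obtain ⟨⟨e, he⟩, h3⟩ := h2 v hv
      exact absurd (h3 he) (notMem_empty _)
    · rintro rfl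
      refine ⟨fun e _ => by simp, fun v hv => absurd hv (notMem_empty _)⟩
  unfold Zp
  rw [h, sum_singleton]
  simp

theorem Comb_erase (E : Finset (Finset V)) (F : Finset ↥E) (e : ↥E) :
    Ind E (F.erase e) = (Ind E F).filter (fun S => ∀ v ∈ S, v ∉ e.1) := by
  ext S
  rw [mem_filter, Comb_mem_Ind, Comb_mem_Ind]
  constructor
  · rintro ⟨h1, h2⟩
    refine ⟨⟨h1, fun v hv => ⟨(h2 v hv).1, (h2 v hv).2.trans (erase_subset _ _)⟩⟩, ?_⟩
    intro v hv hve
    have h3 := (h2 v hv).2 (Comb_mem_Ev.2 hve)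
    exact absurd rfl (mem_erase.1 h3).1
  · rintro ⟨⟨h1, h2⟩, h3⟩
    refine ⟨h1, fun v hv => ⟨(h2 v hv).1, fun e' he' => mem_erase.2 ⟨?_, (h2 v hv).2 he'⟩⟩⟩
    rintro rfl
    exact h3 v hv (Comb_mem_Ev.1 he')

theorem Comb_sum_erase (E : Finset (Finset V)) (F : Finset ↥E) (e : ↥E) (he : e ∈ F) :
    ∑ S ∈ (Ind E F).filter (fun S => ∀ v ∈ S, v ∉ e.1),
      (PowerSeries.X : PowerSeries ℝ) ^ (F.card - S.card)
    = PowerSeries.X * Zp E (F.erase e) := by
  rw [← Comb_erase]
  unfold Zp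
  rw [mul_sum]
  refine sum_congr rfl (fun S hS => ?_)
  have h1 := card_le_of_mem_Ind E (F.erase e) S hS
  have h2 : (F.erase e).card + 1 = F.card := card_erase_add_one he
  rw [← pow_succ']
  congr 1
  omega

theorem Comb_sum_v (E : Finset (Finset V)) (F : Finset ↥E) (e : ↥E) (v : V)
    (hve : v ∈ e.1) (hvF : Ev E v ⊆ F) :
    ∑ S ∈ (Ind E F).filter (fun S => v ∈ S),
      (PowerSeries.X : PowerSeries ℝ) ^ (F.card - S.card)
    = PowerSeries.X ^ ((Ev E v).card - 1) * Zp E (F \ Ev E v) := by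
  have hev : e ∈ Ev E v := Comb_mem_Ev.2 hve
  have hpos : 1 ≤ (Ev E v).card := Finset.card_pos.2 ⟨e, hev⟩
  have hnot : ∀ S ∈ Ind E (F \ Ev E v), v ∉ S := by
    intro S hS hv
    rw [Comb_mem_Ind] at hS
    have := (hS.2 v hv).2 hev
    rw [mem_sdiff] at this
    exact this.2 hev
  have hcardF : (F \ Ev E v).card + (Ev E v).card = F.card := card_sdiff_add_card_eq_card hvF
  unfold Zp
  rw [mul_sum]
  refine sum_nbij' (fun S => S.erase v) (fun S => insert v S) ?_ ?_ ?_ ?_ ?_
  · intro S hS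
    rw [mem_filter, Comb_mem_Ind] at hS
    obtain ⟨⟨h1, h2⟩, h3⟩ := hS
    rw [Comb_mem_Ind]
    refine ⟨fun e' he' => (card_le_card (inter_subset_inter_right (erase_subset _ _))).trans
      (h1 e' he'), ?_⟩
    intro w hw
    rw [mem_erase] at hw
    refine ⟨(h2 w hw.2).1, fun e' he' => mem_sdiff.2 ⟨(h2 w hw.2).2 he', fun h4 => ?_⟩⟩
    exact hw.1 (Comb_eq h1 hw.2 h3 he' h4)
  · intro S hS
    have hvS := hnot S hS
    rw [Comb_mem_Ind] at hS
    obtain ⟨h1, h2⟩ := hS
    rw [mem_filter, Comb_mem_Ind]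
    refine ⟨⟨?_, ?_⟩, mem_insert_self _ _⟩
    · intro e' he'
      by_cases hve' : v ∈ e'
      · have h4 : insert v S ∩ e' ⊆ {v} := by
          intro w hw
          rw [mem_inter, mem_insert] at hw
          rw [mem_singleton]
          rcases hw.1 with h | h
          · exact h
          · exfalso
            have h5 := (h2 w h).2 (Comb_mem_Ev (e := ⟨e', he'⟩) |>.2 hw.2)
            rw [mem_sdiff] at h5
            exact h5.2 (Comb_mem_Ev.2 hve')
        exact (card_le_card h4).trans (by simp)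
      · have h4 : insert v S ∩ e' ⊆ S ∩ e' := by
          intro w hw
          rw [mem_inter, mem_insert] at hw
          rw [mem_inter]
          rcases hw.1 with h | h
          · rw [h] at hw
            exact absurd hw.2 hve'
          · exact ⟨h, hw.2⟩
        exact (card_le_card h4).trans (h1 e' he')
    · intro w hw
      rw [mem_insert] at hw
      rcases hw with h | h
      · rw [h]
        exact ⟨⟨e, hev⟩, hvF⟩
      · exact ⟨(h2 w h).1, (h2 w h).2.trans sdiff_subset⟩
  · intro S hS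
    rw [mem_filter] at hS
    exact insert_erase hS.2
  · intro S hS
    exact erase_insert (hnot S hS)
  · intro S hS
    rw [mem_filter] at hS
    have h1 : (S.erase v) ∈ Ind E (F \ Ev E v) := by
      obtain ⟨hS1, h3⟩ := hS
      rw [Comb_mem_Ind] at hS1
      obtain ⟨h1, h2⟩ := hS1
      rw [Comb_mem_Ind]
      refine ⟨fun e' he' => (card_le_card (inter_subset_inter_right (erase_subset _ _))).trans
        (h1 e' he'), ?_⟩
      intro w hw
      rw [mem_erase] at hw
      refine ⟨(h2 w hw.2).1, fun e' he' => mem_sdiff.2 ⟨(h2 w hw.2).2 he', fun h4 => ?_⟩⟩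
      exact hw.1 (Comb_eq h1 hw.2 h3 he' h4)
    have h2 := card_le_of_mem_Ind E _ _ h1
    have h3 : (S.erase v).card + 1 = S.card := card_erase_add_one hS.2
    show (PowerSeries.X : PowerSeries ℝ) ^ (F.card - S.card)
      = PowerSeries.X ^ ((Ev E v).card - 1) * PowerSeries.X ^ ((F \ Ev E v).card - (S.erase v).card)
    rw [← pow_add]
    congr 1
    omega

theorem Comb_split (E : Finset (Finset V)) (F : Finset ↥E) (e : ↥E) :
    (Ind E F).filter (fun S => ¬ ∀ v ∈ S, v ∉ e.1)
    = (e.1.filter (fun v => Ev E v ⊆ F)).biUnion (fun v => (Ind E F).filter (fun S => v ∈ S)) := by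
  ext S
  rw [mem_filter, mem_biUnion]
  constructor
  · rintro ⟨h1, h2⟩
    push Not at h2
    obtain ⟨v, hv, hve⟩ := h2
    exact ⟨v, mem_filter.2 ⟨hve, ((Comb_mem_Ind.1 h1).2 v hv).2⟩, mem_filter.2 ⟨h1, hv⟩⟩
  · rintro ⟨v, hv, hS⟩
    rw [mem_filter] at hv hS
    exact ⟨hS.1, fun h => h v hS.2 hv.1⟩

theorem rec_Zp (E : Finset (Finset V)) : Rec (Ev E) (fun e => (priv E e.1 : ℝ)) (Zp E) := by
  refine ⟨Comb_zero E, fun F e he => ?_⟩
  have h0 : Zp E F = ∑ S ∈ (Ind E F).filter (fun S => ∀ v ∈ S, v ∉ e.1),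
      (PowerSeries.X : PowerSeries ℝ) ^ (F.card - S.card)
      + ∑ S ∈ (Ind E F).filter (fun S => ¬ ∀ v ∈ S, v ∉ e.1),
        (PowerSeries.X : PowerSeries ℝ) ^ (F.card - S.card) := by
    unfold Zp
    rw [sum_filter_add_sum_filter_not]
  rw [h0, Comb_sum_erase E F e he, Comb_split, sum_biUnion]
  · have h1 : ∑ v ∈ e.1.filter (fun v => Ev E v ⊆ F),
        ∑ S ∈ (Ind E F).filter (fun S => v ∈ S),
          (PowerSeries.X : PowerSeries ℝ) ^ (F.card - S.card)
        = ∑ v ∈ e.1.filter (fun v => Ev E v ⊆ F),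
          PowerSeries.X ^ ((Ev E v).card - 1) * Zp E (F \ Ev E v) := by
      refine sum_congr rfl (fun v hv => ?_)
      rw [mem_filter] at hv
      exact Comb_sum_v E F e v hv.1 hv.2
    rw [h1, ← sum_filter_add_sum_filter_not (e.1.filter (fun v => Ev E v ⊆ F))
      (fun v => deg E v = 1)]
    have h2 : (e.1.filter (fun v => Ev E v ⊆ F)).filter (fun v => deg E v = 1)
        = e.1.filter (fun v => deg E v = 1) := by
      ext v
      rw [mem_filter, mem_filter, mem_filter]
      constructor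
      · rintro ⟨⟨h1, _⟩, h2⟩
        exact ⟨h1, h2⟩
      · rintro ⟨h1, h2⟩
        refine ⟨⟨h1, ?_⟩, h2⟩
        rw [← Ev_card, card_eq_one] at h2
        obtain ⟨a, ha⟩ := h2
        have h3 : e ∈ Ev E v := Comb_mem_Ev.2 h1
        rw [ha, mem_singleton] at h3
        rw [ha, ← h3, singleton_subset_iff]
        exact he
    have h3 : ∑ v ∈ e.1.filter (fun v => deg E v = 1),
        (PowerSeries.X : PowerSeries ℝ) ^ ((Ev E v).card - 1) * Zp E (F \ Ev E v)
        = PowerSeries.C (priv E e.1 : ℝ) * Zp E (F.erase e) := by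
      have h4 : ∀ v ∈ e.1.filter (fun v => deg E v = 1),
          (PowerSeries.X : PowerSeries ℝ) ^ ((Ev E v).card - 1) * Zp E (F \ Ev E v)
          = Zp E (F.erase e) := by
        intro v hv
        rw [mem_filter] at hv
        obtain ⟨h5, h6⟩ := hv
        rw [← Ev_card] at h6
        rw [h6]
        rw [card_eq_one] at h6
        obtain ⟨a, ha⟩ := h6
        have h7 : e ∈ Ev E v := Comb_mem_Ev.2 h5
        rw [ha, mem_singleton] at h7
        rw [ha, ← h7, sdiff_singleton_eq_erase]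
        simp
      rw [sum_congr rfl h4, sum_const, nsmul_eq_mul]
      unfold priv
      simp
    have h4 : (e.1.filter (fun v => Ev E v ⊆ F)).filter (fun v => ¬ deg E v = 1)
        = Thr (Ev E) e F := by
      ext v
      unfold Thr
      rw [mem_filter, mem_filter, mem_filter]
      constructor
      · rintro ⟨⟨h1, h2⟩, h3⟩
        have h5 : e ∈ Ev E v := Comb_mem_Ev.2 h1
        have h6 : 1 ≤ (Ev E v).card := Finset.card_pos.2 ⟨e, h5⟩
        rw [← Ev_card] at h3
        exact ⟨mem_univ _, by omega, h5, h2⟩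
      · rintro ⟨_, h1, h2, h3⟩
        refine ⟨⟨Comb_mem_Ev.1 h2, h3⟩, ?_⟩
        rw [← Ev_card]
        omega
    rw [h2, h3, h4]
    ring
  · intro v hv w hw hvw
    rw [Function.onFun, Finset.disjoint_left]
    intro S hS hS'
    rw [mem_filter] at hS hS'
    rw [mem_coe, mem_filter] at hv hw
    apply hvw
    exact Comb_eq (Comb_mem_Ind.1 hS.1).1 hS.2 hS'.2 (Comb_mem_Ev.2 hv.1 : e ∈ Ev E v)
      (Comb_mem_Ev.2 hw.1)

/-- The number of strong independent sets of size `k` in the set of non-isolated vertices. -/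
def cntNI (E : Finset (Finset V)) (k : ℕ) : ℕ :=
  ((univ : Finset (Finset V)).filter (fun S => StrongIndep E S ∧ (∀ v ∈ S, 1 ≤ deg E v) ∧
    S.card = k)).card

theorem coeff_Zp (E : Finset (Finset V)) (k : ℕ) (hk : k ≤ E.card) :
    coeff (E.card - k) (Zp E univ) = (cntNI E k : ℝ) := by
  unfold Zp
  rw [map_sum]
  have hcard : (univ : Finset ↥E).card = E.card := by
    rw [card_univ, Fintype.card_coe]
  have h1 : ∀ S ∈ Ind E univ, coeff (E.card - k)
      ((PowerSeries.X : PowerSeries ℝ) ^ ((univ : Finset ↥E).card - S.card))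
      = if S.card = k then 1 else 0 := by
    intro S hS
    have h2 := card_le_of_mem_Ind E univ S hS
    rw [hcard] at h2 ⊢
    rw [coeff_X_pow]
    by_cases h3 : S.card = k
    · rw [if_pos h3, if_pos (by omega)]
    · rw [if_neg h3, if_neg (by omega)]
  rw [sum_congr rfl h1, sum_ite, sum_const_zero, add_zero, sum_const, nsmul_eq_mul, mul_one]
  congr 2
  ext S
  rw [mem_filter, Comb_mem_Ind, mem_filter]
  constructor
  · rintro ⟨⟨h2, h3⟩, h4⟩
    refine ⟨mem_univ _, h2, fun v hv => ?_, h4⟩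
    rw [← Ev_card]
    exact Finset.card_pos.2 (h3 v hv).1
  · rintro ⟨_, h2, h3, h4⟩
    refine ⟨⟨h2, fun v hv => ⟨?_, subset_univ _⟩⟩, h4⟩
    have h5 := h3 v hv
    rw [← Ev_card] at h5
    exact Finset.card_pos.1 h5

theorem cntNI_eq_zero (E : Finset (Finset V)) (k : ℕ) (hk : E.card < k) : cntNI E k = 0 := by
  unfold cntNI
  rw [card_eq_zero, filter_eq_empty_iff]
  rintro S _ ⟨h2, h3, h4⟩
  have h5 : S ∈ Ind E univ := by
    rw [Comb_mem_Ind]
    refine ⟨h2, fun v hv => ⟨?_, subset_univ _⟩⟩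
    have h5 := h3 v hv
    rw [← Ev_card] at h5
    exact Finset.card_pos.1 h5
  have h6 := card_le_of_mem_Ind E univ S h5
  rw [card_univ, Fintype.card_coe] at h6
  omega

end Pool.Agent.HypU
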