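import Mathlib
import Pool.Agent.HypU.Defs

/-!
# HYP: module Norm — the algebra of the weighted norm
-/

open Finset PowerSeries

namespace Pool.Agent.HypU

theorem Bd.nonneg {f : PowerSeries ℝ} {M : ℝ} (h : Bd f M) : 0 ≤ M := by
  simpa using h 0

theorem Bd.mono {f : PowerSeries ℝ} {M N : ℝ} (h : Bd f M) (hMN : M ≤ N) : Bd f N :=
  fun n => (h n).trans hMN

theorem Bd.zero : Bd (0 : PowerSeries ℝ) 0 := by
  intro N
  simp

theorem Bd.C (c : ℝ) : Bd (PowerSeries.C c) |c| := by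
  intro N
  have h1 : ∑ n ∈ range N, |PowerSeries.coeff n (PowerSeries.C c)| * 3 ^ n ≤
      ∑ n ∈ range N, if n = 0 then |c| else 0 := by
    apply Finset.sum_le_sum
    intro n _
    rw [PowerSeries.coeff_C]
    split_ifs with h
    · rw [h]; simp
    · simp
  refine h1.trans ?_
  rw [Finset.sum_ite_eq']
  split_ifs
  · exact le_rfl
  · exact abs_nonneg c

theorem Bd.one : Bd (1 : PowerSeries ℝ) 1 := by
  have := Bd.C 1
  simpa using this

theorem Bd.X : Bd (PowerSeries.X : PowerSeries ℝ) 3 := by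
  intro N
  have h1 : ∑ n ∈ range N, |PowerSeries.coeff n (PowerSeries.X : PowerSeries ℝ)| * 3 ^ n ≤
      ∑ n ∈ range N, if n = 1 then (3 : ℝ) else 0 := by
    apply Finset.sum_le_sum
    intro n _
    rw [PowerSeries.coeff_X]
    split_ifs with h
    · rw [h]; simp
    · simp
  refine h1.trans ?_
  rw [Finset.sum_ite_eq']
  split_ifs
  · exact le_rfl
  · norm_num

theorem Bd.add {f g : PowerSeries ℝ} {M N : ℝ} (hf : Bd f M) (hg : Bd g N) : Bd (f + g) (M + N) := by
  intro n
  refine le_trans ?_ (add_le_add (hf n) (hg n))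
  rw [← Finset.sum_add_distrib]
  apply Finset.sum_le_sum
  intro i _
  rw [map_add, ← add_mul]
  exact mul_le_mul_of_nonneg_right (abs_add_le _ _) (by positivity)

theorem Bd.neg {f : PowerSeries ℝ} {M : ℝ} (hf : Bd f M) : Bd (-f) M := by
  intro n
  refine le_trans (le_of_eq ?_) (hf n)
  apply Finset.sum_congr rfl
  intro i _
  rw [map_neg, abs_neg]

theorem Bd.sub {f g : PowerSeries ℝ} {M N : ℝ} (hf : Bd f M) (hg : Bd g N) : Bd (f - g) (M + N) := by
  rw [sub_eq_add_neg]
  exact hf.add hg.neg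

/-- truncated sums are submultiplicative -/
theorem Bd.trunc_mul (f g : PowerSeries ℝ) (N : ℕ) :
    ∑ n ∈ range N, |PowerSeries.coeff n (f * g)| * 3 ^ n ≤
      (∑ n ∈ range N, |PowerSeries.coeff n f| * 3 ^ n) *
        ∑ n ∈ range N, |PowerSeries.coeff n g| * 3 ^ n := by
  have h1 : ∑ n ∈ range N, |PowerSeries.coeff n (f * g)| * 3 ^ n ≤
      ∑ n ∈ range N, ∑ q ∈ antidiagonal n, (|PowerSeries.coeff q.1 f| * 3 ^ q.1) *
        (|PowerSeries.coeff q.2 g| * 3 ^ q.2) := by
    apply Finset.sum_le_sum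
    intro n _
    rw [coeff_mul]
    calc |∑ q ∈ antidiagonal n, coeff q.1 f * coeff q.2 g| * 3 ^ n
        ≤ (∑ q ∈ antidiagonal n, |coeff q.1 f * coeff q.2 g|) * 3 ^ n :=
          mul_le_mul_of_nonneg_right (Finset.abs_sum_le_sum_abs _ _) (by positivity)
      _ = ∑ q ∈ antidiagonal n, (|PowerSeries.coeff q.1 f| * 3 ^ q.1) *
        (|PowerSeries.coeff q.2 g| * 3 ^ q.2) := by
          rw [Finset.sum_mul]
          apply Finset.sum_congr rfl
          intro q hq
          rw [Finset.HasAntidiagonal.mem_antidiagonal] at hq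
          rw [abs_mul, ← hq, pow_add]
          ring
  refine h1.trans ?_
  rw [Finset.sum_mul_sum, Finset.sum_sigma', ← Finset.sum_product']
  have hinj : Set.InjOn (fun q : (Σ _ : ℕ, ℕ × ℕ) => q.2)
      (↑((range N).sigma fun n => antidiagonal n) : Set (Σ _ : ℕ, ℕ × ℕ)) := by
    rintro ⟨n, q⟩ hq ⟨n', q'⟩ hq' h
    simp only [Finset.mem_coe, Finset.mem_sigma, Finset.mem_range,
      Finset.HasAntidiagonal.mem_antidiagonal] at hq hq' h
    subst h
    obtain ⟨_, rfl⟩ := hq
    obtain ⟨_, rfl⟩ := hq'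
    rfl
  have h2 := Finset.sum_image (f := fun q : ℕ × ℕ => (|PowerSeries.coeff q.1 f| * 3 ^ q.1) *
        (|PowerSeries.coeff q.2 g| * 3 ^ q.2)) hinj
  refine (le_of_eq h2.symm).trans ?_
  apply Finset.sum_le_sum_of_subset_of_nonneg
  · intro q hq
    simp only [Finset.mem_image, Finset.mem_sigma, Finset.mem_range,
      Finset.HasAntidiagonal.mem_antidiagonal, Finset.mem_product] at hq ⊢
    obtain ⟨x, ⟨h3, h4⟩, rfl⟩ := hq
    omega
  · intro q _ _
    positivity

/-- Truncated sums are submultiplicative. -/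
theorem Bd.mul {f g : PowerSeries ℝ} {M N : ℝ} (hf : Bd f M) (hg : Bd g N) : Bd (f * g) (M * N) := by
  intro n
  refine (Bd.trunc_mul f g n).trans ?_
  apply mul_le_mul (hf n) (hg n) _ hf.nonneg
  apply Finset.sum_nonneg
  intro i _
  positivity

theorem Bd.sum {κ : Type} (s : Finset κ) (f : κ → PowerSeries ℝ) (M : κ → ℝ)
    (h : ∀ v ∈ s, Bd (f v) (M v)) : Bd (∑ v ∈ s, f v) (∑ v ∈ s, M v) := by
  classical
  induction s using Finset.induction_on with
  | empty => simpa using Bd.zero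
  | insert a s ha ih =>
    rw [Finset.sum_insert ha, Finset.sum_insert ha]
    exact Bd.add (h a (Finset.mem_insert_self a s))
      (ih (fun v hv => h v (Finset.mem_insert_of_mem hv)))

theorem Bd.pow {f : PowerSeries ℝ} {M : ℝ} (hf : Bd f M) (n : ℕ) : Bd (f ^ n) (M ^ n) := by
  induction n with
  | zero => simpa using Bd.one
  | succ n ih =>
    rw [pow_succ, pow_succ]
    exact ih.mul hf

/-- If `f = c (1 + small)` then `f⁻¹` has norm at most `1 / (c (1 - θ))`. Proof: with `g = f⁻¹`,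
`c g = 1 - (f - c) g`, so the truncated sums `S_N` satisfy `c S_N(g) ≤ 1 + θ c S_N(g)`. -/
theorem Bd.inv {f : PowerSeries ℝ} {c θ : ℝ} (hc : 0 < c) (hθ : θ < 1)
    (hf : Bd (f - PowerSeries.C c) (θ * c)) (h0 : constantCoeff f = c) :
    Bd f⁻¹ (1 / (c * (1 - θ))) := by
  intro N
  have h1 : f * f⁻¹ = 1 := PowerSeries.mul_inv_cancel _ (by rw [h0]; exact hc.ne')
  have h2 : PowerSeries.C c * f⁻¹ = 1 - (f - PowerSeries.C c) * f⁻¹ := by
    rw [sub_mul, h1]
    ring
  set S := ∑ n ∈ range N, |PowerSeries.coeff n f⁻¹| * 3 ^ n with hS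
  have hS0 : 0 ≤ S := Finset.sum_nonneg (fun i _ => by positivity)
  have h3 : ∑ n ∈ range N, |PowerSeries.coeff n (PowerSeries.C c * f⁻¹)| * 3 ^ n = c * S := by
    rw [hS, Finset.mul_sum]
    apply Finset.sum_congr rfl
    intro i _
    rw [coeff_C_mul, abs_mul, abs_of_pos hc]
    ring
  have h4 : ∑ n ∈ range N, |PowerSeries.coeff n (PowerSeries.C c * f⁻¹)| * 3 ^ n ≤
      1 + θ * c * S := by
    rw [h2]
    have h5 : ∑ n ∈ range N, |PowerSeries.coeff n ((f - PowerSeries.C c) * f⁻¹)| * 3 ^ n ≤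
        θ * c * S := by
      refine (Bd.trunc_mul _ _ N).trans ?_
      exact mul_le_mul_of_nonneg_right (hf N) hS0
    have h6 := Bd.one N
    refine le_trans ?_ (add_le_add h6 h5)
    rw [← Finset.sum_add_distrib]
    apply Finset.sum_le_sum
    intro i _
    rw [map_sub, ← add_mul]
    exact mul_le_mul_of_nonneg_right (abs_sub _ _) (by positivity)
  rw [h3] at h4
  have h7 : 0 < c * (1 - θ) := mul_pos hc (by linarith)
  rw [le_div_iff₀ h7]
  nlinarith

end Pool.Agent.HypU
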