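import Mathlib
import Pool.Agent.HypU.Norm
import Pool.Agent.HypU.Pos

/-!
# HYP: module Est — the norm estimates

Write `X_e(F) = Z(F) / Z(F - e)` for `e ∈ F` (a power series with constant coefficient `p_e`).
For `v ∈ Thr A e F` the quotient `X^(d_v-1) Z(F \ A v) / Z(F - e)` is the product of
`X / X_{c_i}(F_i)` over the points `c_1, c_2, …` of `A v - e`, `F_i = (F - e) \ {c_1, …, c_{i-1}}`.

Claim 1 (`est1`): `‖X_e(F) - p_e‖ ≤ p_e / 4`, hence `‖1/X_e(F)‖ ≤ 4/(3 p_e)`, `‖X/X_e(F)‖ ≤ 4/p_e`.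
Strong induction on `|F|`: the norm is at most `3 + ∑_v ∏_c 4/p_c ≤ p_e/4` by (H').

Claim 2 (`est2`): with `K(F) = X Z(F)'/Z(F)` and `Y_e(F) = K(F) - K(F - e)`,
`‖Y_e(F)‖ ≤ 4/(3 p_e) (3 + 3/2 ∑_{v ∈ Thr A e F} (d_v - 1) ∏_{c ∈ A v - e} 4/p_c) ≤ 1/2`.
Proof: from the derivative of the recursion,
`Y_e(F) = (1/X_e(F)) [X + ∑_v R_v ((d_v - 1) - (K(F - e) - K(F \ A v)))]`,
`R_v = X^(d_v-1) Z(F \ A v)/Z(F - e)`, `‖R_v‖ ≤ ∏ 4/p_c`, and `K(F - e) - K(F \ A v)` is a sum of
`d_v - 1` terms `Y_{c_i}(F_i)`.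

Claim 3 (`est3`): `‖K(F)‖ ≤ 4 ∑_{e ∈ F} 1/p_e + 2 ∑_{v : A v ⊆ F} (d_v-1) 4^(d_v-1) ∏_{e ∈ A v} 1/p_e`
(induction on `F`, the `v` with `e ∈ A v` are those in `Thr A e F`), and the last sum is at most
`∑_v 1/(4 p_{c(v)}) ≤ λ/4` for any choice of `c(v) ∈ B v` (as `p ≥ 16`,
`(d-1) 4^(d-1) 16^(-(d-1)) ≤ 1/4`).
-/

open Finset PowerSeries

namespace Pool.Agent.HypU

variable {ι κ : Type} [DecidableEq ι] [Fintype κ]

section Est

variable {A : κ → Finset ι} {p : ι → ℝ} {Z : Finset ι → PowerSeries ℝ}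

theorem Est.const_pos (hZ : Rec A p Z) (hp : ∀ e, 0 < p e) (F : Finset ι) :
    0 < constantCoeff (Z F) := by
  have := coeff_pos hZ hp F 0 (Nat.zero_le _)
  simpa using this

theorem Est.const_ne (hZ : Rec A p Z) (hp : ∀ e, 0 < p e) (F : Finset ι) :
    constantCoeff (Z F) ≠ 0 := (Est.const_pos hZ hp F).ne'

theorem Est.mem_Thr {e : ι} {F : Finset ι} {v : κ} :
    v ∈ Thr A e F ↔ 2 ≤ (A v).card ∧ e ∈ A v ∧ A v ⊆ F := by
  simp [Thr]

/-- the quotient `Z F / Z (F - e)` -/
noncomputable def Est.Q (Z : Finset ι → PowerSeries ℝ) (F : Finset ι) (e : ι) : PowerSeries ℝ :=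
  Z F * (Z (F.erase e))⁻¹

theorem Est.sdiff_eq {e : ι} {F : Finset ι} {D : Finset ι} (he : e ∈ D) :
    F \ D = (F.erase e) \ (D.erase e) := by
  ext x
  simp only [Finset.mem_sdiff, Finset.mem_erase]
  constructor
  · rintro ⟨h1, h2⟩
    refine ⟨⟨?_, h1⟩, fun h => h2 h.2⟩
    rintro rfl
    exact h2 he
  · rintro ⟨⟨h1, h2⟩, h3⟩
    exact ⟨h2, fun h => h3 ⟨h1, h⟩⟩

theorem Est.Q_eq (hZ : Rec A p Z) (hp : ∀ e, 0 < p e) {F : Finset ι} {e : ι} (he : e ∈ F) :
    Est.Q Z F e = PowerSeries.C (p e) + PowerSeries.X +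
      ∑ v ∈ Thr A e F, PowerSeries.X ^ ((A v).card - 1) *
        (Z ((F.erase e) \ ((A v).erase e)) * (Z (F.erase e))⁻¹) := by
  unfold Est.Q
  rw [hZ.2 F e he, add_mul, mul_assoc, PowerSeries.mul_inv_cancel _ (Est.const_ne hZ hp _), mul_one,
    Finset.sum_mul]
  congr 1
  apply Finset.sum_congr rfl
  intro v hv
  rw [Est.mem_Thr] at hv
  rw [Est.sdiff_eq hv.2.1, mul_assoc]

theorem Est.Q_const (hZ : Rec A p Z) (hp : ∀ e, 0 < p e) {F : Finset ι} {e : ι} (he : e ∈ F) :
    constantCoeff (Est.Q Z F e) = p e := by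
  rw [Est.Q_eq hZ hp he]
  simp only [map_add, map_sum, map_mul, map_pow, constantCoeff_C, constantCoeff_X, add_zero]
  rw [Finset.sum_eq_zero, add_zero]
  intro v hv
  rw [Est.mem_Thr] at hv
  rw [zero_pow (by omega), zero_mul]

theorem Est.Q_inv (hZ : Rec A p Z) (hp : ∀ e, 0 < p e) {F : Finset ι} {e : ι} (he : e ∈ F) :
    (Est.Q Z F e)⁻¹ = Z (F.erase e) * (Z F)⁻¹ := by
  have h1 := PowerSeries.mul_inv_cancel _ (Est.const_ne hZ hp (F.erase e))
  have h2 := PowerSeries.mul_inv_cancel _ (Est.const_ne hZ hp F)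
  rw [PowerSeries.inv_eq_iff_mul_eq_one]
  · unfold Est.Q
    calc Z (F.erase e) * (Z F)⁻¹ * (Z F * (Z (F.erase e))⁻¹)
        = (Z F * (Z F)⁻¹) * (Z (F.erase e) * (Z (F.erase e))⁻¹) := by ring
      _ = 1 := by rw [h1, h2, one_mul]
  · rw [Est.Q_const hZ hp he]
    exact (hp e).ne'

/-- quotient by several points -/
theorem Est.quot (hZ : Rec A p Z) (hp : ∀ e, 0 < p e) (G : Finset ι)
    (hG : ∀ G' ⊆ G, ∀ c ∈ G', Bd (PowerSeries.X * (Z (G'.erase c) * (Z G')⁻¹)) (4 / p c))
    (D : Finset ι) (hD : D ⊆ G) :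
    Bd (PowerSeries.X ^ D.card * (Z (G \ D) * (Z G)⁻¹)) (∏ c ∈ D, (4 / p c)) := by
  induction D using Finset.induction_on with
  | empty =>
    have h1 := PowerSeries.mul_inv_cancel _ (Est.const_ne hZ hp G)
    simp only [Finset.card_empty, pow_zero, Finset.sdiff_empty, one_mul, Finset.prod_empty]
    rw [h1]
    exact Bd.one
  | insert c D hc ih =>
    have hDG : D ⊆ G := fun x hx => hD (Finset.mem_insert_of_mem hx)
    have hcG : c ∈ G \ D := Finset.mem_sdiff.2 ⟨hD (Finset.mem_insert_self c D), hc⟩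
    have h1 := PowerSeries.mul_inv_cancel _ (Est.const_ne hZ hp (G \ D))
    have h2 := hG (G \ D) Finset.sdiff_subset c hcG
    have h3 := Bd.mul h2 (ih hDG)
    rw [Finset.prod_insert hc, Finset.card_insert_of_notMem hc]
    have e1 : G \ insert c D = (G \ D).erase c := by
      ext x
      simp only [Finset.mem_sdiff, Finset.mem_insert, Finset.mem_erase]
      tauto
    rw [e1]
    convert h3 using 1
    calc PowerSeries.X ^ (D.card + 1) * (Z ((G \ D).erase c) * (Z G)⁻¹)
        = PowerSeries.X * Z ((G \ D).erase c) * 1 * (PowerSeries.X ^ D.card * (Z G)⁻¹) := by ring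
      _ = PowerSeries.X * Z ((G \ D).erase c) * (Z (G \ D) * (Z (G \ D))⁻¹) *
          (PowerSeries.X ^ D.card * (Z G)⁻¹) := by rw [h1]
      _ = _ := by ring

theorem Est.inv_bd (hZ : Rec A p Z) (hp : ∀ e, 0 < p e) {F : Finset ι} {e : ι} (he : e ∈ F)
    (h : Bd (Est.Q Z F e - PowerSeries.C (p e)) (p e / 4)) :
    Bd (Est.Q Z F e)⁻¹ (4 / (3 * p e)) := by
  have h1 := Bd.inv (hp e) (show (1 : ℝ) / 4 < 1 by norm_num) (f := Est.Q Z F e)
    (by convert h using 1; ring) (Est.Q_const hZ hp he)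
  convert h1 using 1
  have := (hp e).ne'
  field_simp
  norm_num

theorem Est.X_inv_bd (hZ : Rec A p Z) (hp : ∀ e, 0 < p e) {F : Finset ι} {e : ι} (he : e ∈ F)
    (h : Bd (Est.Q Z F e - PowerSeries.C (p e)) (p e / 4)) :
    Bd (PowerSeries.X * (Z (F.erase e) * (Z F)⁻¹)) (4 / p e) := by
  rw [← Est.Q_inv hZ hp he]
  have h1 := Bd.mul Bd.X (Est.inv_bd hZ hp he h)
  convert h1 using 1
  have := (hp e).ne'
  field_simp

/-- the sum in the condition bounds the sum over `Thr` -/
theorem Est.cond_le (hp : ∀ e, 0 < p e) (hH : Cond A p) (F : Finset ι) (e : ι) :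
    12 + 4 * ∑ v ∈ Thr A e F, (((A v).card : ℝ) - 1) * ∏ c ∈ (A v).erase e, (4 / p c) ≤ p e := by
  refine le_trans ?_ (hH e).2
  have : ∑ v ∈ Thr A e F, (((A v).card : ℝ) - 1) * ∏ c ∈ (A v).erase e, (4 / p c) ≤
      ∑ v ∈ (univ.filter (fun v => 2 ≤ (A v).card ∧ e ∈ A v)),
      (((A v).card : ℝ) - 1) * ∏ c ∈ (A v).erase e, (4 / p c) := by
    apply Finset.sum_le_sum_of_subset_of_nonneg
    · intro v hv
      rw [Est.mem_Thr] at hv
      simp only [Finset.mem_filter, Finset.mem_univ, true_and]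
      exact ⟨hv.1, hv.2.1⟩
    · intro v hv _
      simp only [Finset.mem_filter, Finset.mem_univ, true_and] at hv
      have h1 : (2 : ℝ) ≤ (A v).card := by exact_mod_cast hv.1
      apply mul_nonneg (by linarith)
      apply Finset.prod_nonneg
      intro c _
      exact div_nonneg (by norm_num) (hp c).le
  linarith

theorem Est.est1 (hZ : Rec A p Z) (hH : Cond A p) (n : ℕ) :
    ∀ F : Finset ι, F.card = n → ∀ e ∈ F, Bd (Est.Q Z F e - PowerSeries.C (p e)) (p e / 4) := by
  have hp : ∀ e, 0 < p e := fun e => by linarith [(hH e).1]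
  induction n using Nat.strong_induction_on with
  | _ n ih =>
    intro F hF e he
    have hGc : (F.erase e).card < n := by
      rw [Finset.card_erase_of_mem he, hF]
      have : 0 < F.card := Finset.card_pos.2 ⟨e, he⟩
      omega
    have hG : ∀ G' ⊆ F.erase e, ∀ c ∈ G',
        Bd (PowerSeries.X * (Z (G'.erase c) * (Z G')⁻¹)) (4 / p c) := by
      intro G' hG' c hc
      have h1 : G'.card < n := lt_of_le_of_lt (Finset.card_le_card hG') hGc
      exact Est.X_inv_bd hZ hp hc (ih _ h1 G' rfl c hc)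
    rw [Est.Q_eq hZ hp he]
    have e1 : PowerSeries.C (p e) + PowerSeries.X +
      ∑ v ∈ Thr A e F, PowerSeries.X ^ ((A v).card - 1) *
        (Z ((F.erase e) \ ((A v).erase e)) * (Z (F.erase e))⁻¹) - PowerSeries.C (p e) =
        PowerSeries.X + ∑ v ∈ Thr A e F, PowerSeries.X ^ ((A v).card - 1) *
        (Z ((F.erase e) \ ((A v).erase e)) * (Z (F.erase e))⁻¹) := by ring
    rw [e1]
    refine Bd.mono (Bd.add Bd.X (Bd.sum _ _ (fun v => ∏ c ∈ (A v).erase e, (4 / p c)) ?_)) ?_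
    · intro v hv
      rw [Est.mem_Thr] at hv
      have h2 := Est.quot hZ hp (F.erase e) hG ((A v).erase e) (Finset.erase_subset_erase e hv.2.2)
      rwa [Finset.card_erase_of_mem hv.2.1] at h2
    · have h3 := Est.cond_le hp hH F e
      have h4 : ∑ v ∈ Thr A e F, ∏ c ∈ (A v).erase e, (4 / p c) ≤
          ∑ v ∈ Thr A e F, (((A v).card : ℝ) - 1) * ∏ c ∈ (A v).erase e, (4 / p c) := by
        apply Finset.sum_le_sum
        intro v hv
        rw [Est.mem_Thr] at hv
        have h5 : (2 : ℝ) ≤ (A v).card := by exact_mod_cast hv.1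
        have h6 : 0 ≤ ∏ c ∈ (A v).erase e, (4 / p c) := by
          apply Finset.prod_nonneg
          intro c _
          exact div_nonneg (by norm_num) (hp c).le
        nlinarith
      linarith

/-- `K F = X Z' / Z` -/
noncomputable def Est.K (Z : Finset ι → PowerSeries ℝ) (F : Finset ι) : PowerSeries ℝ :=
  PowerSeries.X * derivative ℝ (Z F) * (Z F)⁻¹

theorem Est.K_empty (hZ : Rec A p Z) : Est.K Z ∅ = 0 := by
  unfold Est.K
  rw [hZ.1]
  simp

theorem Est.K_identity (hZ : Rec A p Z) (hp : ∀ e, 0 < p e) {F : Finset ι} {e : ι} (he : e ∈ F) :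
    Est.K Z F - Est.K Z (F.erase e) = (Est.Q Z F e)⁻¹ * (PowerSeries.X +
      ∑ v ∈ Thr A e F, (PowerSeries.X ^ ((A v).card - 1) *
        (Z ((F.erase e) \ ((A v).erase e)) * (Z (F.erase e))⁻¹)) *
        (PowerSeries.C (((A v).card : ℝ) - 1) -
          (Est.K Z (F.erase e) - Est.K Z ((F.erase e) \ ((A v).erase e))))) := by
  have hU := PowerSeries.mul_inv_cancel _ (Est.const_ne hZ hp (F.erase e))
  have hF := PowerSeries.mul_inv_cancel _ (Est.const_ne hZ hp F)
  have hrec : Z F = (PowerSeries.C (p e) + PowerSeries.X) * Z (F.erase e) +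
      ∑ v ∈ Thr A e F, PowerSeries.X ^ ((A v).card - 1) * Z ((F.erase e) \ ((A v).erase e)) := by
    rw [hZ.2 F e he]
    congr 1
    apply Finset.sum_congr rfl
    intro v hv
    rw [Est.mem_Thr] at hv
    rw [Est.sdiff_eq hv.2.1]
  have hder : PowerSeries.X * derivative ℝ (Z F) = PowerSeries.X * Z (F.erase e) +
      (PowerSeries.C (p e) + PowerSeries.X) * (PowerSeries.X * derivative ℝ (Z (F.erase e))) +
      ∑ v ∈ Thr A e F, (PowerSeries.C (((A v).card : ℝ) - 1) * PowerSeries.X ^ ((A v).card - 1) *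
          Z ((F.erase e) \ ((A v).erase e)) +
        PowerSeries.X ^ ((A v).card - 1) *
          (PowerSeries.X * derivative ℝ (Z ((F.erase e) \ ((A v).erase e))))) := by
    rw [hrec, map_add, map_sum, Derivation.leibniz, map_add, derivative_C, derivative_X]
    simp only [smul_eq_mul, zero_add, mul_one, mul_add, Finset.mul_sum]
    have hs : ∀ v ∈ Thr A e F, PowerSeries.X * derivative ℝ (PowerSeries.X ^ ((A v).card - 1) *
        Z ((F.erase e) \ ((A v).erase e))) =
        PowerSeries.C (((A v).card : ℝ) - 1) * PowerSeries.X ^ ((A v).card - 1) *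
          Z ((F.erase e) \ ((A v).erase e)) +
        PowerSeries.X ^ ((A v).card - 1) *
          (PowerSeries.X * derivative ℝ (Z ((F.erase e) \ ((A v).erase e)))) := by
      intro v hv
      rw [Est.mem_Thr] at hv
      obtain ⟨k, hk⟩ : ∃ k, (A v).card = k + 2 := ⟨(A v).card - 2, by omega⟩
      rw [hk, Derivation.leibniz, derivative_pow, derivative_X]
      simp only [smul_eq_mul, show k + 2 - 1 = k + 1 from rfl, Nat.add_sub_cancel]
      have : (PowerSeries.C (((k + 2 : ℕ) : ℝ) - 1) : PowerSeries ℝ) = ((k + 1 : ℕ) : PowerSeries ℝ) := by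
        rw [← map_natCast (PowerSeries.C (R := ℝ))]
        congr 1
        push_cast
        ring
      rw [this]
      ring
    rw [Finset.sum_congr rfl hs]
    ring
  unfold Est.K
  rw [Est.Q_inv hZ hp he]
  have hv' : ∀ v ∈ Thr A e F, (PowerSeries.X ^ ((A v).card - 1) *
        (Z ((F.erase e) \ ((A v).erase e)) * (Z (F.erase e))⁻¹)) *
        (PowerSeries.C (((A v).card : ℝ) - 1) -
          (PowerSeries.X * derivative ℝ (Z (F.erase e)) * (Z (F.erase e))⁻¹ -
            PowerSeries.X * derivative ℝ (Z ((F.erase e) \ ((A v).erase e))) *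
              (Z ((F.erase e) \ ((A v).erase e)))⁻¹)) =
      (Z (F.erase e))⁻¹ * ((PowerSeries.C (((A v).card : ℝ) - 1) * PowerSeries.X ^ ((A v).card - 1) *
          Z ((F.erase e) \ ((A v).erase e)) +
        PowerSeries.X ^ ((A v).card - 1) *
          (PowerSeries.X * derivative ℝ (Z ((F.erase e) \ ((A v).erase e))))) -
        PowerSeries.X ^ ((A v).card - 1) * Z ((F.erase e) \ ((A v).erase e)) *
          (PowerSeries.X * derivative ℝ (Z (F.erase e)) * (Z (F.erase e))⁻¹)) := by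
    intro v hv
    have hV := PowerSeries.mul_inv_cancel _ (Est.const_ne hZ hp ((F.erase e) \ ((A v).erase e)))
    linear_combination (PowerSeries.X ^ ((A v).card - 1) * (Z (F.erase e))⁻¹ *
      (PowerSeries.X * derivative ℝ (Z ((F.erase e) \ ((A v).erase e))))) * hV
  rw [Finset.sum_congr rfl hv', ← Finset.mul_sum, Finset.sum_sub_distrib, ← Finset.sum_mul]
  set S1 := ∑ v ∈ Thr A e F, (PowerSeries.C (((A v).card : ℝ) - 1) * PowerSeries.X ^ ((A v).card - 1) *
          Z ((F.erase e) \ ((A v).erase e)) +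
        PowerSeries.X ^ ((A v).card - 1) *
          (PowerSeries.X * derivative ℝ (Z ((F.erase e) \ ((A v).erase e))))) with hS1
  set S0 := ∑ v ∈ Thr A e F, PowerSeries.X ^ ((A v).card - 1) * Z ((F.erase e) \ ((A v).erase e))
    with hS0
  set U := Z (F.erase e)
  set dU := derivative ℝ U
  rw [hder]
  have hF' : ((PowerSeries.C (p e) + PowerSeries.X) * U + S0) * (Z F)⁻¹ = 1 := by
    rw [← hrec]; exact hF
  linear_combination (PowerSeries.X * dU * U⁻¹) * hF' +
    (-((PowerSeries.C (p e) + PowerSeries.X) * PowerSeries.X * dU * (Z F)⁻¹) +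
      PowerSeries.X * dU * U⁻¹ * S0 * (Z F)⁻¹ - S1 * (Z F)⁻¹) * hU

theorem Est.K_sub (G : Finset ι)
    (hY : ∀ G' ⊆ G, ∀ c ∈ G', Bd (Est.K Z G' - Est.K Z (G'.erase c)) (1 / 2))
    (D : Finset ι) (hD : D ⊆ G) : Bd (Est.K Z G - Est.K Z (G \ D)) ((D.card : ℝ) / 2) := by
  induction D using Finset.induction_on with
  | empty =>
    simp only [Finset.sdiff_empty, sub_self, Finset.card_empty, Nat.cast_zero, zero_div]
    exact Bd.zero
  | insert c D hc ih =>
    have hDG : D ⊆ G := fun x hx => hD (Finset.mem_insert_of_mem hx)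
    have hcG : c ∈ G \ D := Finset.mem_sdiff.2 ⟨hD (Finset.mem_insert_self c D), hc⟩
    have h2 := hY (G \ D) Finset.sdiff_subset c hcG
    have e1 : G \ insert c D = (G \ D).erase c := by
      ext x
      simp only [Finset.mem_sdiff, Finset.mem_insert, Finset.mem_erase]
      tauto
    rw [e1, Finset.card_insert_of_notMem hc]
    have h3 := Bd.add (ih hDG) h2
    convert h3 using 1
    · ring
    · push_cast
      ring

/-- the sum over the shared vertices through `e` -/
noncomputable def Est.SS (A : κ → Finset ι) (p : ι → ℝ) (F : Finset ι) (e : ι) : ℝ :=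
  ∑ v ∈ Thr A e F, (((A v).card : ℝ) - 1) * ∏ c ∈ (A v).erase e, (4 / p c)

theorem Est.SS_nonneg (hp : ∀ e, 0 < p e) (F : Finset ι) (e : ι) : 0 ≤ Est.SS A p F e := by
  apply Finset.sum_nonneg
  intro v hv
  rw [Est.mem_Thr] at hv
  have h5 : (2 : ℝ) ≤ (A v).card := by exact_mod_cast hv.1
  apply mul_nonneg (by linarith)
  apply Finset.prod_nonneg
  intro c _
  exact div_nonneg (by norm_num) (hp c).le

theorem Est.half (hH : Cond A p) (F : Finset ι) (e : ι) :
    4 / (3 * p e) * (3 + 3 / 2 * Est.SS A p F e) ≤ 1 / 2 := by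
  have hp : ∀ e, 0 < p e := fun e => by linarith [(hH e).1]
  have h1 := Est.cond_le hp hH F e
  have h2 := Est.SS_nonneg (A := A) hp F e
  have h3 := hp e
  unfold Est.SS at *
  rw [div_mul_eq_mul_div, div_le_iff₀ (by positivity)]
  nlinarith

theorem Est.est2 (hZ : Rec A p Z) (hH : Cond A p) (n : ℕ) :
    ∀ F : Finset ι, F.card = n → ∀ e ∈ F, Bd (Est.K Z F - Est.K Z (F.erase e))
      (4 / (3 * p e) * (3 + 3 / 2 * Est.SS A p F e)) := by
  have hp : ∀ e, 0 < p e := fun e => by linarith [(hH e).1]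
  induction n using Nat.strong_induction_on with
  | _ n ih =>
    intro F hF e he
    have hGc : (F.erase e).card < n := by
      rw [Finset.card_erase_of_mem he, hF]
      have : 0 < F.card := Finset.card_pos.2 ⟨e, he⟩
      omega
    have hY : ∀ G' ⊆ F.erase e, ∀ c ∈ G', Bd (Est.K Z G' - Est.K Z (G'.erase c)) (1 / 2) := by
      intro G' hG' c hc
      have h1 : G'.card < n := lt_of_le_of_lt (Finset.card_le_card hG') hGc
      exact Bd.mono (ih _ h1 G' rfl c hc) (Est.half hH G' c)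
    have hG : ∀ G' ⊆ F.erase e, ∀ c ∈ G',
        Bd (PowerSeries.X * (Z (G'.erase c) * (Z G')⁻¹)) (4 / p c) := by
      intro G' _ c hc
      exact Est.X_inv_bd hZ hp hc (Est.est1 hZ hH _ G' rfl c hc)
    rw [Est.K_identity hZ hp he]
    refine Bd.mul (Est.inv_bd hZ hp he (Est.est1 hZ hH _ F rfl e he)) ?_
    refine Bd.mono (Bd.add Bd.X (Bd.sum _ _
      (fun v => (∏ c ∈ (A v).erase e, (4 / p c)) * ((((A v).card : ℝ) - 1) * (3 / 2))) ?_)) ?_
    · intro v hv
      rw [Est.mem_Thr] at hv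
      have h5 : (2 : ℝ) ≤ (A v).card := by exact_mod_cast hv.1
      have hsub : (A v).erase e ⊆ F.erase e := Finset.erase_subset_erase e hv.2.2
      have h2 := Est.quot hZ hp (F.erase e) hG ((A v).erase e) hsub
      rw [Finset.card_erase_of_mem hv.2.1] at h2
      refine Bd.mul h2 ?_
      have h6 := Est.K_sub (F.erase e) hY ((A v).erase e) hsub
      rw [Finset.card_erase_of_mem hv.2.1] at h6
      have h7 := Bd.sub (Bd.C (((A v).card : ℝ) - 1)) h6
      convert h7 using 1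
      rw [abs_of_nonneg (by linarith), Nat.cast_sub (by omega)]
      push_cast
      ring
    · unfold Est.SS
      rw [Finset.mul_sum]
      apply le_of_eq
      congr 1
      apply Finset.sum_congr rfl
      intro v _
      ring

/-- the second sum in `est3` -/
noncomputable def Est.W (A : κ → Finset ι) (p : ι → ℝ) (v : κ) : ℝ :=
  (((A v).card : ℝ) - 1) * 4 ^ ((A v).card - 1) * ∏ e ∈ A v, (1 / p e)

theorem Est.est3 (hZ : Rec A p Z) (hH : Cond A p) (F : Finset ι) :
    Bd (Est.K Z F) (4 * ∑ e ∈ F, 1 / p e +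
      2 * ∑ v ∈ univ.filter (fun v => 2 ≤ (A v).card ∧ A v ⊆ F), Est.W A p v) := by
  classical
  have hp : ∀ e, 0 < p e := fun e => by linarith [(hH e).1]
  induction F using Finset.induction_on with
  | empty =>
    rw [Est.K_empty hZ]
    have : univ.filter (fun v : κ => 2 ≤ (A v).card ∧ A v ⊆ (∅ : Finset ι)) = ∅ := by
      rw [Finset.filter_eq_empty_iff]
      rintro v _ ⟨h1, h2⟩
      rw [Finset.subset_empty] at h2
      rw [h2] at h1
      simp at h1
    rw [this]
    simp only [Finset.sum_empty, mul_zero, add_zero]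
    exact Bd.zero
  | insert e F he ih =>
    have h1 := Est.est2 hZ hH _ (insert e F) rfl e (Finset.mem_insert_self e F)
    rw [Finset.erase_insert he] at h1
    have h2 := Bd.add h1 ih
    rw [sub_add_cancel] at h2
    refine Bd.mono h2 (le_of_eq ?_)
    rw [Finset.sum_insert he]
    have hsplit : univ.filter (fun v : κ => 2 ≤ (A v).card ∧ A v ⊆ insert e F) =
        Thr A e (insert e F) ∪ univ.filter (fun v : κ => 2 ≤ (A v).card ∧ A v ⊆ F) := by
      ext v
      simp only [Finset.mem_filter, Finset.mem_univ, true_and, Finset.mem_union, Thr]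
      constructor
      · rintro ⟨h3, h4⟩
        by_cases h5 : e ∈ A v
        · exact Or.inl ⟨h3, h5, h4⟩
        · refine Or.inr ⟨h3, fun x hx => ?_⟩
          rcases Finset.mem_insert.1 (h4 hx) with rfl | h6
          · exact absurd hx h5
          · exact h6
      · rintro (⟨h3, _, h4⟩ | ⟨h3, h4⟩)
        · exact ⟨h3, h4⟩
        · exact ⟨h3, fun x hx => Finset.mem_insert_of_mem (h4 hx)⟩
    have hdisj : Disjoint (Thr A e (insert e F))
        (univ.filter (fun v : κ => 2 ≤ (A v).card ∧ A v ⊆ F)) := by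
      rw [Finset.disjoint_left]
      intro v hv hv'
      rw [Est.mem_Thr] at hv
      simp only [Finset.mem_filter, Finset.mem_univ, true_and] at hv'
      exact he (hv'.2 hv.2.1)
    rw [hsplit, Finset.sum_union hdisj]
    have hS : 4 / (3 * p e) * (3 / 2 * Est.SS A p (insert e F) e) =
        2 * ∑ v ∈ Thr A e (insert e F), Est.W A p v := by
      unfold Est.SS Est.W
      rw [Finset.mul_sum, Finset.mul_sum, Finset.mul_sum]
      apply Finset.sum_congr rfl
      intro v hv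
      rw [Est.mem_Thr] at hv
      have h7 : ∏ c ∈ (A v).erase e, (4 / p c) =
          4 ^ ((A v).card - 1) * ∏ c ∈ (A v).erase e, (1 / p c) := by
        rw [← Finset.card_erase_of_mem hv.2.1, ← Finset.prod_const, ← Finset.prod_mul_distrib]
        apply Finset.prod_congr rfl
        intro c _
        ring
      rw [h7, ← Finset.mul_prod_erase (A v) (fun e => 1 / p e) hv.2.1]
      have := (hp e).ne'
      field_simp
      norm_num
    have h8 : 4 / (3 * p e) * 3 = 4 * (1 / p e) := by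
      have := (hp e).ne'
      field_simp
    calc 4 / (3 * p e) * (3 + 3 / 2 * Est.SS A p (insert e F) e) +
          (4 * ∑ e ∈ F, 1 / p e +
            2 * ∑ v ∈ univ.filter (fun v => 2 ≤ (A v).card ∧ A v ⊆ F), Est.W A p v)
        = 4 / (3 * p e) * 3 + 4 / (3 * p e) * (3 / 2 * Est.SS A p (insert e F) e) +
          (4 * ∑ e ∈ F, 1 / p e +
            2 * ∑ v ∈ univ.filter (fun v => 2 ≤ (A v).card ∧ A v ⊆ F), Est.W A p v) := by ring
      _ = _ := by rw [hS, h8]; ring

/-- `(d - 1) 4 ^ (d - 1) 16 ^ (-(d - 1)) ≤ 1 / 4` -/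
theorem Est.W_le (hp : ∀ e, 16 ≤ p e) (v : κ) (hv : 2 ≤ (A v).card) (c : ι) (hc : c ∈ A v) :
    Est.W A p v ≤ 1 / 4 * (1 / p c) := by
  have hp0 : ∀ e, 0 < p e := fun e => by linarith [hp e]
  obtain ⟨k, hk⟩ : ∃ k, (A v).card = k + 2 := ⟨(A v).card - 2, by omega⟩
  have h1 : ∏ e ∈ (A v).erase c, (1 / p e) ≤ (1 / 16) ^ (k + 1) := by
    have h2 : ((A v).erase c).card = k + 1 := by
      rw [Finset.card_erase_of_mem hc, hk]
      rfl
    rw [← h2]
    rw [← Finset.prod_const]
    apply Finset.prod_le_prod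
    · intro e _
      have := hp0 e
      positivity
    · intro e _
      have := hp e
      have := hp0 e
      rw [div_le_div_iff₀ (by positivity) (by norm_num)]
      linarith
  unfold Est.W
  rw [← Finset.mul_prod_erase (A v) (fun e => 1 / p e) hc, hk]
  have h3 : 0 < 1 / p c := by have := hp0 c; positivity
  have h4 : (((k + 2 : ℕ) : ℝ) - 1) ≤ 4 ^ k := by
    have : (k : ℝ) + 1 ≤ 4 ^ k := by
      have h5 := one_add_mul_le_pow (show (-2 : ℝ) ≤ 3 by norm_num) k
      have h6 : (0 : ℝ) ≤ k := Nat.cast_nonneg k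
      have h7 : (1 + 3 : ℝ) ^ k = 4 ^ k := by norm_num
      rw [h7] at h5
      nlinarith
    push_cast
    linarith
  have h8 : (0 : ℝ) ≤ ((k + 2 : ℕ) : ℝ) - 1 := by push_cast; linarith [Nat.cast_nonneg (α := ℝ) k]
  have hprod : 0 ≤ ∏ e ∈ (A v).erase c, (1 / p e) := by
    apply Finset.prod_nonneg
    intro e _
    have := hp0 e
    positivity
  show (((k + 2 : ℕ) : ℝ) - 1) * 4 ^ (k + 1) * (1 / p c * ∏ e ∈ (A v).erase c, (1 / p e)) ≤
    1 / 4 * (1 / p c)
  calc (((k + 2 : ℕ) : ℝ) - 1) * 4 ^ (k + 1) * (1 / p c * ∏ e ∈ (A v).erase c, (1 / p e))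
      ≤ 4 ^ k * 4 ^ (k + 1) * (1 / p c * (1 / 16) ^ (k + 1)) := by gcongr
    _ = 1 / 4 * (1 / p c) * (4 ^ k * 4 ^ (k + 1) * 4 * (1 / 16) ^ (k + 1)) := by ring
    _ = 1 / 4 * (1 / p c) := by
      have : (4 : ℝ) ^ k * 4 ^ (k + 1) * 4 * (1 / 16) ^ (k + 1) = 1 := by
        have h9 : (4 : ℝ) ^ k * 4 ^ (k + 1) * 4 = 16 ^ (k + 1) := by
          have : (16 : ℝ) = 4 * 4 := by norm_num
          rw [this, mul_pow]
          ring
        rw [h9, ← mul_pow]
        norm_num
      rw [this, mul_one]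

theorem Est.sum_W [Fintype ι] {B : κ → Finset ι} (hp : ∀ e, 16 ≤ p e) (hB : Acyc A B) :
    ∑ v ∈ univ.filter (fun v => 2 ≤ (A v).card), Est.W A p v ≤ 1 / 4 * ∑ e, 1 / p e := by
  classical
  have hp0 : ∀ e, 0 < p e := fun e => by linarith [hp e]
  have h1 : ∀ v ∈ univ.filter (fun v => 2 ≤ (A v).card),
      Est.W A p v ≤ ∑ c ∈ B v, 1 / 4 * (1 / p c) := by
    intro v hv
    simp only [Finset.mem_filter, Finset.mem_univ, true_and] at hv
    obtain ⟨h2, h3⟩ := hB.1 v hv
    have h4 : 0 < (B v).card := by omega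
    obtain ⟨c, hc⟩ := Finset.card_pos.1 h4
    refine (Est.W_le hp v hv c (h2 hc)).trans ?_
    apply Finset.single_le_sum (f := fun c => 1 / 4 * (1 / p c)) _ hc
    intro e _
    have := hp0 e
    positivity
  refine (Finset.sum_le_sum h1).trans ?_
  rw [Finset.mul_sum, ← Finset.sum_biUnion]
  · apply Finset.sum_le_sum_of_subset_of_nonneg (Finset.subset_univ _)
    intro e _ _
    have := hp0 e
    positivity
  · intro v hv w hw hvw
    simp only [Finset.coe_filter, Finset.mem_univ, true_and, Set.mem_ofPred_eq] at hv hw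
    exact hB.2 v w hvw hv hw

end Est

/-- The logarithmic derivative of `Z univ`. -/
theorem logder [Fintype ι] {A B : κ → Finset ι} {p : ι → ℝ} {Z : Finset ι → PowerSeries ℝ}
    (hZ : Rec A p Z) (hH : Cond A p) (hB : Acyc A B) :
    ∃ l : ℕ → ℝ,
      (∀ n : ℕ, ((n : ℝ) + 1) * coeff (n + 1) (Z univ) =
        ∑ i ∈ range (n + 1), l i * coeff (n - i) (Z univ)) ∧
      ∀ N : ℕ, ∑ n ∈ range N, |l n| * 3 ^ (n + 1) ≤ 9 / 2 * ∑ e, 1 / p e := by
  have hp : ∀ e, 0 < p e := fun e => by linarith [(hH e).1]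
  have hinv := PowerSeries.mul_inv_cancel _ (Est.const_ne hZ hp (univ : Finset ι))
  refine ⟨fun n => coeff n (derivative ℝ (Z univ) * (Z univ)⁻¹), ?_, ?_⟩
  · intro n
    have h1 : derivative ℝ (Z univ) =
        (derivative ℝ (Z univ) * (Z univ)⁻¹) * Z univ := by
      calc derivative ℝ (Z univ) = derivative ℝ (Z univ) * (Z univ * (Z univ)⁻¹) := by
            rw [hinv, mul_one]
        _ = _ := by ring
    have h2 : coeff n (derivative ℝ (Z univ)) = coeff (n + 1) (Z univ) * (n + 1) :=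
      coeff_derivative _ _
    rw [mul_comm, ← h2]
    conv_lhs => rw [h1]
    rw [coeff_mul, Finset.Nat.sum_antidiagonal_eq_sum_range_succ_mk]
  · intro N
    have h3 := Est.est3 hZ hH (univ : Finset ι) (N + 1)
    have h4 : ∑ n ∈ range N, |coeff n (derivative ℝ (Z univ) * (Z univ)⁻¹)| * 3 ^ (n + 1) ≤
        ∑ n ∈ range (N + 1), |coeff n (Est.K Z univ)| * 3 ^ n := by
      rw [Finset.sum_range_succ']
      have h5 : ∀ n, coeff (n + 1) (Est.K Z univ) =
          coeff n (derivative ℝ (Z univ) * (Z univ)⁻¹) := by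
        intro n
        unfold Est.K
        rw [mul_assoc, coeff_succ_X_mul]
      simp only [h5]
      have : 0 ≤ |coeff 0 (Est.K Z univ)| * 3 ^ 0 := by positivity
      linarith
    refine h4.trans (h3.trans ?_)
    have h6 := Est.sum_W (A := A) (B := B) (p := p) (fun e => (hH e).1) hB
    have h7 : univ.filter (fun v : κ => 2 ≤ (A v).card ∧ A v ⊆ (univ : Finset ι)) =
        univ.filter (fun v : κ => 2 ≤ (A v).card) := by
      ext v
      simp
    rw [h7]
    linarith

end Pool.Agent.HypU
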