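import Mathlib
import Pool.Agent.HypU.Defs

/-!
# HYP: module Iso — isolated vertices

If `a` is unimodal then so is `b k = a k + a (k - 1)` (`b 0 = a 0`). Adding one isolated vertex `v` to
the ground set `W` changes the counts in this way.
-/

open Finset

namespace Pool.Agent.HypU

variable {V : Type} [Fintype V] [DecidableEq V]

theorem Unimodal.step {a : ℕ → ℕ} (h : Unimodal a) :
    Unimodal (fun k => a k + if k = 0 then 0 else a (k - 1)) := by
  obtain ⟨m, h1, h2⟩ := h
  have key : ∀ k, (k < m → a k + (if k = 0 then 0 else a (k - 1)) ≤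
      a (k + 1) + (if k + 1 = 0 then 0 else a (k + 1 - 1))) ∧
      (m + 1 ≤ k → a (k + 1) + (if k + 1 = 0 then 0 else a (k + 1 - 1)) ≤
        a k + (if k = 0 then 0 else a (k - 1))) := by
    intro k
    refine ⟨fun hk => ?_, fun hk => ?_⟩
    · rcases k with _ | k
      · have := h1 0 hk
        simp
      · have h3 := h1 (k + 1) hk
        have h4 := h1 k (by omega)
        simp only [Nat.add_eq_zero_iff, one_ne_zero, and_false, if_false, Nat.add_sub_cancel]
        omega
    · rcases k with _ | k
      · omega
      · have h3 := h2 (k + 1) (by omega)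
        have h4 := h2 k (by omega)
        simp only [Nat.add_eq_zero_iff, one_ne_zero, and_false, if_false, Nat.add_sub_cancel]
        omega
  by_cases hm : a m + (if m = 0 then 0 else a (m - 1)) ≤
      a (m + 1) + (if m + 1 = 0 then 0 else a (m + 1 - 1))
  · refine ⟨m + 1, fun k hk => ?_, fun k hk => (key k).2 hk⟩
    rcases Nat.lt_succ_iff_lt_or_eq.1 hk with h3 | h3
    · exact (key k).1 h3
    · subst h3
      exact hm
  · refine ⟨m, fun k hk => (key k).1 hk, fun k hk => ?_⟩
    rcases Nat.eq_or_lt_of_le hk with h3 | h3
    · subst h3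
      exact (not_le.1 hm).le
    · exact (key k).2 h3

/-- The number of strong independent sets of size `k` inside `W`. -/
def cntIn (E : Finset (Finset V)) (W : Finset V) (k : ℕ) : ℕ :=
  ((univ : Finset (Finset V)).filter (fun S => StrongIndep E S ∧ S ⊆ W ∧ S.card = k)).card

theorem Iso.not_mem {E : Finset (Finset V)} {v : V} (hd : deg E v = 0) {e : Finset V} (he : e ∈ E) :
    v ∉ e := by
  intro hv
  unfold deg at hd
  rw [Finset.card_eq_zero, Finset.filter_eq_empty_iff] at hd
  exact hd he hv

theorem Iso.insert_inter {E : Finset (Finset V)} {v : V} (hd : deg E v = 0) {e : Finset V}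
    (he : e ∈ E) (S : Finset V) : insert v S ∩ e = S ∩ e :=
  Finset.insert_inter_of_notMem (Iso.not_mem hd he)

theorem cntIn_insert (E : Finset (Finset V)) (W : Finset V) (v : V) (hv : v ∉ W) (hd : deg E v = 0)
    (k : ℕ) : cntIn E (insert v W) k = cntIn E W k + if k = 0 then 0 else cntIn E W (k - 1) := by
  have h1 : (univ : Finset (Finset V)).filter
      (fun S => StrongIndep E S ∧ S ⊆ insert v W ∧ S.card = k) =
      ((univ : Finset (Finset V)).filter (fun S => StrongIndep E S ∧ S ⊆ W ∧ S.card = k)) ∪
      ((univ : Finset (Finset V)).filter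
        (fun S => StrongIndep E S ∧ S ⊆ insert v W ∧ S.card = k ∧ v ∈ S)) := by
    ext S
    simp only [Finset.mem_filter, Finset.mem_univ, true_and, Finset.mem_union]
    constructor
    · rintro ⟨h2, h3, h4⟩
      by_cases h5 : v ∈ S
      · exact Or.inr ⟨h2, h3, h4, h5⟩
      · exact Or.inl ⟨h2, (Finset.subset_insert_iff_of_notMem h5).1 h3, h4⟩
    · rintro (⟨h2, h3, h4⟩ | ⟨h2, h3, h4, _⟩)
      · exact ⟨h2, h3.trans (Finset.subset_insert v W), h4⟩
      · exact ⟨h2, h3, h4⟩
  have h2 : Disjoint
      ((univ : Finset (Finset V)).filter (fun S => StrongIndep E S ∧ S ⊆ W ∧ S.card = k))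
      ((univ : Finset (Finset V)).filter
        (fun S => StrongIndep E S ∧ S ⊆ insert v W ∧ S.card = k ∧ v ∈ S)) := by
    rw [Finset.disjoint_left]
    intro S hS hS'
    simp only [Finset.mem_filter, Finset.mem_univ, true_and] at hS hS'
    exact hv (hS.2.1 hS'.2.2.2)
  unfold cntIn
  rw [h1, Finset.card_union_of_disjoint h2]
  congr 1
  split_ifs with hk
  · rw [Finset.card_eq_zero, Finset.filter_eq_empty_iff]
    rintro S _ ⟨_, _, h4, h5⟩
    rw [hk, Finset.card_eq_zero] at h4
    rw [h4] at h5
    simp at h5
  · symm
    apply Finset.card_bij (fun S _ => insert v S)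
    · intro S hS
      simp only [Finset.mem_filter, Finset.mem_univ, true_and] at hS ⊢
      obtain ⟨h3, h4, h5⟩ := hS
      have h6 : v ∉ S := fun h => hv (h4 h)
      refine ⟨fun e he => ?_, Finset.insert_subset_insert v h4, ?_, Finset.mem_insert_self v S⟩
      · rw [Iso.insert_inter hd he]
        exact h3 e he
      · rw [Finset.card_insert_of_notMem h6, h5]
        omega
    · intro S hS S' hS' h
      simp only [Finset.mem_filter, Finset.mem_univ, true_and] at hS hS'
      have h6 : v ∉ S := fun h => hv (hS.2.1 h)
      have h7 : v ∉ S' := fun h => hv (hS'.2.1 h)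
      rw [← Finset.erase_insert h6, ← Finset.erase_insert h7, h]
    · intro S hS
      simp only [Finset.mem_filter, Finset.mem_univ, true_and] at hS
      obtain ⟨h3, h4, h5, h6⟩ := hS
      refine ⟨S.erase v, ?_, Finset.insert_erase h6⟩
      simp only [Finset.mem_filter, Finset.mem_univ, true_and]
      refine ⟨fun e he => ?_, ?_, ?_⟩
      · have := h3 e he
        rw [← Finset.insert_erase h6, Iso.insert_inter hd he] at this
        exact this
      · rw [← Finset.subset_insert_iff]
        exact h4
      · rw [Finset.card_erase_of_mem h6, h5]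

/-- If the sequence of counts of the non-isolated vertices is unimodal, so is the full one. -/
theorem unimodal_of_nonisolated (E : Finset (Finset V))
    (h : Unimodal (fun k => ((univ : Finset (Finset V)).filter (fun S => StrongIndep E S ∧
      (∀ v ∈ S, 1 ≤ deg E v) ∧ S.card = k)).card)) : Unimodal (indepCount E) := by
  have h1 : ∀ I : Finset V, (∀ v ∈ I, deg E v = 0) →
      Unimodal (cntIn E (I ∪ univ.filter (fun v => 1 ≤ deg E v))) := by
    intro I
    induction I using Finset.induction_on with
    | empty =>
      intro _
      convert h using 3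
      rename_i k
      unfold cntIn
      congr 1
      ext S
      simp only [Finset.mem_filter, Finset.mem_univ, true_and, Finset.empty_union]
      constructor
      · rintro ⟨h2, h3, h4⟩
        refine ⟨h2, fun v hv => ?_, h4⟩
        have := h3 hv
        simpa using this
      · rintro ⟨h2, h3, h4⟩
        refine ⟨h2, fun v hv => ?_, h4⟩
        simpa using h3 v hv
    | insert v I hv ih =>
      intro hI
      have h2 := ih (fun w hw => hI w (Finset.mem_insert_of_mem hw))
      have h3 := hI v (Finset.mem_insert_self v I)
      have h4 : v ∉ I ∪ univ.filter (fun v => 1 ≤ deg E v) := by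
        rw [Finset.mem_union]
        rintro (h5 | h5)
        · exact hv h5
        · simp only [Finset.mem_filter, Finset.mem_univ, true_and] at h5
          omega
      have h5 := h2.step
      rw [Finset.insert_union]
      have h6 : cntIn E (insert v (I ∪ univ.filter (fun v => 1 ≤ deg E v))) =
          fun k => cntIn E (I ∪ univ.filter (fun v => 1 ≤ deg E v)) k +
            if k = 0 then 0 else cntIn E (I ∪ univ.filter (fun v => 1 ≤ deg E v)) (k - 1) := by
        funext k
        exact cntIn_insert E _ v h4 h3 k
      rw [h6]
      exact h5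
  have h2 := h1 (univ.filter (fun v => deg E v = 0)) (by
    intro v hv
    simpa using hv)
  have h3 : univ.filter (fun v => deg E v = 0) ∪ univ.filter (fun v => 1 ≤ deg E v) =
      (univ : Finset V) := by
    ext v
    simp only [Finset.mem_union, Finset.mem_filter, Finset.mem_univ, true_and, iff_true]
    omega
  rw [h3] at h2
  convert h2 using 2
  rename_i k
  unfold indepCount cntIn
  congr 1
  ext S
  simp

end Pool.Agent.HypU
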