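import Mathlib
import Pool.Agent.HypU.Defs

/-!
# HYP: module Seq — the sequence lemma

`a_0, …, a_m > 0`, `(j+1) a_{j+1} = ∑_{i ≤ j} l_i a_{j-i}` for `j < m`, `l_0 ≥ L > 0` (`L` is `λ`),
`∑ |l_n| 3^(n+1) ≤ (9/2) L`, `(j+1) a_{j+1} ≤ (17/16) L a_j`. Then `a` is unimodal on `0..m`.

Proof. `ρ_j = a_{j-1}/a_j` for `1 ≤ j ≤ m`, `ρ_0 = 0`, `D_j = j/ρ_j`. `∑_{n≥1} |l_n| 3^n ≤ (3/2) L -
l_0 ≤ l_0/2`. Let `J ≤ m` be maximal with `ρ_i ≤ 3/2` for `1 ≤ i ≤ J`. For `j ≤ J`, `j + 1 ≤ m`: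
`D_{j+1} = ∑_{n ≤ j} l_n ρ_j ρ_{j-1} ⋯ ρ_{j-n+1}`, so `|D_{j+1} - l_0| ≤ ∑_{n ≥ 1} |l_n| (3/2)^n ≤
l_0/4`. Claim `0 ≤ ρ_{j+1} - ρ_j ≤ 2/l_0` for `0 ≤ j ≤ J`, `j < m` (induction; `ρ_1 = 1/l_0`): for
`j ≥ 1`
`D_{j+1} - D_j = ∑_{1 ≤ n ≤ j} l_n ρ_{j-1} ⋯ ρ_{j-n+1} (ρ_j - ρ_{j-n})`, of absolute value at most
`∑ |l_n| (3/2)^(n-1) n (2/l_0) ≤ (2/l_0) ∑_{n≥1} |l_n| 3^(n-1) ≤ 1/3` (`n ≤ 2^(n-1)`), and
`j |D_{j+1} - D_j| = ρ_j D_j |D_{j+1} - D_j| ≤ (3/2) D_j (1/3) = D_j / 2`, so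
`ρ_{j+1} - ρ_j = (D_j - j (D_{j+1} - D_j)) / (D_j D_{j+1}) ∈ [1/2, 3/2] / D_{j+1}`,
`D_{j+1} ≥ (3/4) l_0`.
If `J < m` then `ρ_{J+1} > 3/2` and `J + 1 = ρ_{J+1} D_{J+1} > (9/8) l_0 ≥ (17/16) L`, so for
`j ≥ J + 1`: `j a_j ≤ (17/16) L a_{j-1} ≤ j a_{j-1}`, i.e. `ρ_j ≥ 1`. So `ρ` is nondecreasing up to
`J`, and `≥ 1` after `J`.
-/

open Finset

namespace Pool.Agent.HypU

/-- the ratios -/
noncomputable def Seq_r (a : ℕ → ℝ) (j : ℕ) : ℝ := if j = 0 then 0 else a (j - 1) / a j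

theorem Seq_r_zero (a : ℕ → ℝ) : Seq_r a 0 = 0 := by simp [Seq_r]

theorem Seq_r_succ (a : ℕ → ℝ) (j : ℕ) : Seq_r a (j + 1) = a j / a (j + 1) := by simp [Seq_r]

theorem Seq_q (a : ℕ → ℝ) (m : ℕ) (ha : ∀ j : ℕ, j ≤ m → 0 < a j) (k : ℕ) (hk : k ≤ m)
    (hr : ∀ i, i ≤ k → Seq_r a i ≤ 3 / 2) (n : ℕ) (hn : n ≤ k) :
    a (k - n) / a k ≤ (3 / 2) ^ n := by
  induction n with
  | zero =>
    have := ha k hk
    simp [this.ne']
  | succ n ih =>
    have h1 := ih (by omega)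
    have hp : 0 < a (k - n) := ha _ (by omega)
    have hp' : 0 < a (k - (n + 1)) := ha _ (by omega)
    have hk' : 0 < a k := ha k hk
    have h2 := hr (k - n) (by omega)
    have e : k - n = (k - (n + 1)) + 1 := by omega
    rw [e, Seq_r_succ, ← e] at h2
    have h3 : a (k - (n + 1)) / a k = (a (k - (n + 1)) / a (k - n)) * (a (k - n) / a k) := by
      field_simp
    rw [h3, pow_succ, mul_comm]
    apply mul_le_mul h1 h2 (by positivity) (by positivity)

theorem Seq_sum (l : ℕ → ℝ) (L : ℝ)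
    (hl0 : L ≤ l 0) (hl : ∀ N : ℕ, ∑ n ∈ range N, |l n| * 3 ^ (n + 1) ≤ 9 / 2 * L) (N : ℕ) :
    ∑ n ∈ range N, |l (n + 1)| * 3 ^ n ≤ l 0 / 6 := by
  have h := hl (N + 1)
  rw [sum_range_succ'] at h
  have h1 : ∑ n ∈ range N, |l (n + 1)| * 3 ^ (n + 1 + 1) = 9 * ∑ n ∈ range N, |l (n + 1)| * 3 ^ n := by
    rw [mul_sum]
    apply sum_congr rfl
    intro n _
    ring
  rw [h1] at h
  have h2 := le_abs_self (l 0)
  simp only [zero_add, pow_one] at h
  linarith

theorem Seq_D1 (m : ℕ) (a l : ℕ → ℝ)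
    (ha : ∀ j : ℕ, j ≤ m → 0 < a j) (hrec : ∀ j : ℕ, j < m → ((j : ℝ) + 1) * a (j + 1) =
      ∑ i ∈ range (j + 1), l i * a (j - i)) (k : ℕ) (hk : k + 1 < m) :
    ((k : ℝ) + 2) = Seq_r a (k + 2) *
      (l 0 + Seq_r a (k + 1) * ∑ n ∈ range (k + 1), l (n + 1) * (a (k - n) / a k)) := by
  have h := hrec (k + 1) hk
  rw [sum_range_succ'] at h
  have h1 : 0 < a (k + 1) := ha _ (by omega)
  have h2 : 0 < a (k + 2) := ha _ (by omega)
  have h3 : 0 < a k := ha _ (by omega)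
  rw [Seq_r_succ, Seq_r_succ]
  have h4 : a k / a (k + 1) * ∑ n ∈ range (k + 1), l (n + 1) * (a (k - n) / a k) =
      (∑ n ∈ range (k + 1), l (n + 1) * a (k - n)) / a (k + 1) := by
    rw [mul_sum, sum_div]
    apply sum_congr rfl
    intro n _
    field_simp
  rw [h4]
  have h5 : ∑ n ∈ range (k + 1), l (n + 1) * a (k + 1 - (n + 1)) =
      ∑ n ∈ range (k + 1), l (n + 1) * a (k - n) := by
    apply sum_congr rfl
    intro n _
    congr 2
    omega
  rw [h5] at h
  simp only [Nat.sub_zero] at h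
  push_cast at h
  have h6 : a (k + 1) / a (k + 1 + 1) *
      (l 0 + (∑ n ∈ range (k + 1), l (n + 1) * a (k - n)) / a (k + 1)) =
      ((∑ n ∈ range (k + 1), l (n + 1) * a (k - n)) + l 0 * a (k + 1)) / a (k + 2) := by
    field_simp
    ring
  rw [h6, ← h]
  field_simp
  ring

theorem Seq_D2 (m : ℕ) (a l : ℕ → ℝ)
    (ha : ∀ j : ℕ, j ≤ m → 0 < a j) (hrec : ∀ j : ℕ, j < m → ((j : ℝ) + 1) * a (j + 1) =
      ∑ i ∈ range (j + 1), l i * a (j - i)) (k : ℕ) (hk : k < m) :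
    ((k : ℝ) + 1) = Seq_r a (k + 1) *
      (l 0 + ∑ n ∈ range (k + 1), l (n + 1) * (a (k - n) / a k) * Seq_r a (k - n)) := by
  have h := hrec k hk
  have h1 : 0 < a (k + 1) := ha _ (by omega)
  have h3 : 0 < a k := ha _ (by omega)
  rw [sum_range_succ'] at h
  have h5 : ∑ n ∈ range (k + 1), l (n + 1) * (a (k - n) / a k) * Seq_r a (k - n) =
      (∑ n ∈ range k, l (n + 1) * a (k - (n + 1))) / a k := by
    rw [sum_range_succ, Nat.sub_self, Seq_r_zero, mul_zero, add_zero, sum_div]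
    apply sum_congr rfl
    intro n hn
    have hn' : n < k := mem_range.1 hn
    have e : k - n = (k - (n + 1)) + 1 := by omega
    have h6 : 0 < a (k - n) := ha _ (by omega)
    have h7 : Seq_r a (k - n) = a (k - (n + 1)) / a (k - n) := by
      rw [e, Seq_r_succ, ← e]
    rw [h7]
    field_simp
  rw [h5, Seq_r_succ]
  simp only [Nat.sub_zero] at h
  have h6 : a k / a (k + 1) * (l 0 + (∑ n ∈ range k, l (n + 1) * a (k - (n + 1))) / a k) =
      ((∑ n ∈ range k, l (n + 1) * a (k - (n + 1))) + l 0 * a k) / a (k + 1) := by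
    field_simp
    ring
  rw [h6, ← h]
  field_simp

theorem Seq_r_nonneg (m : ℕ) (a : ℕ → ℝ) (ha : ∀ j : ℕ, j ≤ m → 0 < a j) (j : ℕ) (hj : j ≤ m) :
    0 ≤ Seq_r a j := by
  rcases j with _ | j
  · rw [Seq_r_zero]
  · rw [Seq_r_succ]
    exact (div_pos (ha _ (by omega)) (ha _ hj)).le

theorem Seq_low (m : ℕ) (a l : ℕ → ℝ) (L : ℝ) (hL : 0 < L)
    (ha : ∀ j : ℕ, j ≤ m → 0 < a j) (hrec : ∀ j : ℕ, j < m → ((j : ℝ) + 1) * a (j + 1) =
      ∑ i ∈ range (j + 1), l i * a (j - i))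
    (hl0 : L ≤ l 0) (hl : ∀ N : ℕ, ∑ n ∈ range N, |l n| * 3 ^ (n + 1) ≤ 9 / 2 * L)
    (k : ℕ) (hk : k + 1 < m) (hr : ∀ i, i ≤ k + 1 → Seq_r a i ≤ 3 / 2) :
    3 / 4 * l 0 ≤
      l 0 + Seq_r a (k + 1) * ∑ n ∈ range (k + 1), l (n + 1) * (a (k - n) / a k) := by
  have hl0' : 0 < l 0 := lt_of_lt_of_le hL hl0
  have h1 := Seq_r_nonneg m a ha (k + 1) (by omega)
  have h2 := hr (k + 1) le_rfl
  have h3 : |∑ n ∈ range (k + 1), l (n + 1) * (a (k - n) / a k)| ≤ l 0 / 6 := by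
    refine (abs_sum_le_sum_abs _ _).trans ((sum_le_sum ?_).trans (Seq_sum l L hl0 hl (k + 1)))
    intro n hn
    have hn' : n ≤ k := by have := mem_range.1 hn; omega
    rw [abs_mul]
    apply mul_le_mul_of_nonneg_left _ (abs_nonneg _)
    have h4 : 0 < a (k - n) / a k := div_pos (ha _ (by omega)) (ha _ (by omega))
    rw [abs_of_pos h4]
    refine (Seq_q a m ha k (by omega) (fun i hi => hr i (by omega)) n hn').trans ?_
    exact pow_le_pow_left₀ (by norm_num) (by norm_num) n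
  have h5 : |Seq_r a (k + 1) * ∑ n ∈ range (k + 1), l (n + 1) * (a (k - n) / a k)| ≤
      3 / 2 * (l 0 / 6) := by
    rw [abs_mul, abs_of_nonneg h1]
    exact mul_le_mul h2 h3 (abs_nonneg _) (by norm_num)
  have h6 := neg_abs_le (Seq_r a (k + 1) * ∑ n ∈ range (k + 1), l (n + 1) * (a (k - n) / a k))
  linarith

theorem Seq_two (n : ℕ) : ((n : ℝ) + 1) ≤ 2 ^ n := by
  have : n + 1 ≤ 2 ^ n := Nat.lt_two_pow_self
  exact_mod_cast this

theorem Seq_step (m : ℕ) (a l : ℕ → ℝ) (L : ℝ) (hL : 0 < L)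
    (ha : ∀ j : ℕ, j ≤ m → 0 < a j) (hrec : ∀ j : ℕ, j < m → ((j : ℝ) + 1) * a (j + 1) =
      ∑ i ∈ range (j + 1), l i * a (j - i))
    (hl0 : L ≤ l 0) (hl : ∀ N : ℕ, ∑ n ∈ range N, |l n| * 3 ^ (n + 1) ≤ 9 / 2 * L) (j : ℕ) :
    j < m → (∀ i, i ≤ j → Seq_r a i ≤ 3 / 2) →
      Seq_r a j ≤ Seq_r a (j + 1) ∧ Seq_r a (j + 1) - Seq_r a j ≤ 2 / l 0 := by
  have hl0' : 0 < l 0 := lt_of_lt_of_le hL hl0
  induction j using Nat.strong_induction_on with
  | _ j IH =>
  intro hj hr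
  rcases j with _ | k
  · have h := hrec 0 hj
    simp at h
    have h0 : 0 < a 0 := ha 0 (by omega)
    rw [Seq_r_zero, zero_add, Seq_r_succ, zero_add, sub_zero, h]
    have e : a 0 / (l 0 * a 0) = 1 / l 0 := by field_simp
    rw [e]
    constructor
    · positivity
    · gcongr
      norm_num
  · -- the differences
    have hdiff : ∀ n, n ≤ k → 0 ≤ Seq_r a (k + 1) - Seq_r a (k - n) ∧
        Seq_r a (k + 1) - Seq_r a (k - n) ≤ ((n : ℝ) + 1) * (2 / l 0) := by
      intro n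
      induction n with
      | zero =>
        intro _
        have := IH k (by omega) (by omega) (fun i hi => hr i (by omega))
        simp only [Nat.sub_zero, Nat.cast_zero, zero_add, one_mul]
        exact ⟨by linarith [this.1], this.2⟩
      | succ n ih =>
        intro hn
        have h1 := ih (by omega)
        have h2 := IH (k - (n + 1)) (by omega) (by omega) (fun i hi => hr i (by omega))
        have e : k - (n + 1) + 1 = k - n := by omega
        rw [e] at h2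
        push_cast
        constructor
        · linarith [h1.1, h2.1]
        · have : ((n : ℝ) + 1 + 1) * (2 / l 0) = ((n : ℝ) + 1) * (2 / l 0) + 2 / l 0 := by ring
          rw [this]
          linarith [h1.2, h2.2]
    have hD1 := Seq_D1 m a l ha hrec k hj
    have hD2 := Seq_D2 m a l ha hrec k (by omega)
    have hlow := Seq_low m a l L hL ha hrec hl0 hl k hj hr
    set D1 := l 0 + Seq_r a (k + 1) * ∑ n ∈ range (k + 1), l (n + 1) * (a (k - n) / a k) with hD1d
    set D2 := l 0 + ∑ n ∈ range (k + 1), l (n + 1) * (a (k - n) / a k) * Seq_r a (k - n) with hD2d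
    have hdd : D1 - D2 = ∑ n ∈ range (k + 1),
        l (n + 1) * ((a (k - n) / a k) * (Seq_r a (k + 1) - Seq_r a (k - n))) := by
      rw [hD1d, hD2d, mul_sum, add_sub_add_left_eq_sub, ← sum_sub_distrib]
      apply sum_congr rfl
      intro n _
      ring
    have habs : |D1 - D2| ≤ 1 / 3 := by
      rw [hdd]
      refine (abs_sum_le_sum_abs _ _).trans ?_
      have h1 : ∀ n ∈ range (k + 1),
          |l (n + 1) * ((a (k - n) / a k) * (Seq_r a (k + 1) - Seq_r a (k - n)))| ≤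
          |l (n + 1)| * 3 ^ n * (2 / l 0) := by
        intro n hn
        have hn' : n ≤ k := by have := mem_range.1 hn; omega
        have h4 : 0 < a (k - n) / a k := div_pos (ha _ (by omega)) (ha _ (by omega))
        have h5 := Seq_q a m ha k (by omega) (fun i hi => hr i (by omega)) n hn'
        have h6 := hdiff n hn'
        rw [abs_mul, abs_mul, abs_of_pos h4, abs_of_nonneg h6.1, mul_assoc]
        apply mul_le_mul_of_nonneg_left _ (abs_nonneg _)
        calc a (k - n) / a k * (Seq_r a (k + 1) - Seq_r a (k - n))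
            ≤ (3 / 2) ^ n * (((n : ℝ) + 1) * (2 / l 0)) :=
              mul_le_mul h5 h6.2 h6.1 (by positivity)
          _ ≤ (3 / 2) ^ n * (2 ^ n * (2 / l 0)) := by
              gcongr
              exact Seq_two n
          _ = 3 ^ n * (2 / l 0) := by
              rw [← mul_assoc, ← mul_pow]; norm_num
      refine (sum_le_sum h1).trans ?_
      rw [← sum_mul]
      have h2 := Seq_sum l L hl0 hl (k + 1)
      calc (∑ n ∈ range (k + 1), |l (n + 1)| * 3 ^ n) * (2 / l 0)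
          ≤ (l 0 / 6) * (2 / l 0) := by gcongr
        _ = 1 / 3 := by field_simp; norm_num
    have hr1 : 0 < Seq_r a (k + 1) := by
      rw [Seq_r_succ]; exact div_pos (ha _ (by omega)) (ha _ (by omega))
    have hr2 : 0 < Seq_r a (k + 2) := by
      rw [Seq_r_succ]; exact div_pos (ha _ (by omega)) (ha _ (by omega))
    have hD1pos : 0 < D1 := lt_of_lt_of_le (by positivity) hlow
    have hD2pos : 0 < D2 := by
      by_contra h
      push Not at h
      have : Seq_r a (k + 1) * D2 ≤ 0 := mul_nonpos_of_nonneg_of_nonpos hr1.le h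
      have hk0 : (0 : ℝ) ≤ k := Nat.cast_nonneg k
      linarith
    have hr32 := hr (k + 1) le_rfl
    -- (k+1) |D1 - D2| ≤ D2 / 2
    have hX : |((k : ℝ) + 1) * (D1 - D2)| ≤ D2 / 2 := by
      rw [hD2, abs_mul, abs_of_pos (mul_pos hr1 hD2pos)]
      calc Seq_r a (k + 1) * D2 * |D1 - D2| ≤ (3 / 2) * D2 * (1 / 3) := by
            apply mul_le_mul _ habs (abs_nonneg _) (by positivity)
            exact mul_le_mul_of_nonneg_right hr32 hD2pos.le
        _ = D2 / 2 := by ring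
    have hX1 := abs_le.1 hX
    have hr2' : Seq_r a (k + 2) = ((k : ℝ) + 2) / D1 := by
      field_simp
      linarith
    have hr1' : Seq_r a (k + 1) = ((k : ℝ) + 1) / D2 := by
      field_simp
      linarith
    have hfin : Seq_r a (k + 2) - Seq_r a (k + 1) =
        (D2 - ((k : ℝ) + 1) * (D1 - D2)) / D2 / D1 := by
      rw [hr1', hr2']
      field_simp
      ring
    have hq1 : (1 : ℝ) / 2 ≤ (D2 - ((k : ℝ) + 1) * (D1 - D2)) / D2 := by
      rw [le_div_iff₀ hD2pos]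
      linarith [hX1.2]
    have hq2 : (D2 - ((k : ℝ) + 1) * (D1 - D2)) / D2 ≤ 3 / 2 := by
      rw [div_le_iff₀ hD2pos]
      linarith [hX1.1]
    constructor
    · have : 0 ≤ Seq_r a (k + 2) - Seq_r a (k + 1) := by
        rw [hfin]
        exact div_nonneg (by linarith) hD1pos.le
      show Seq_r a (k + 1) ≤ Seq_r a (k + 2)
      linarith
    · show Seq_r a (k + 2) - Seq_r a (k + 1) ≤ 2 / l 0
      rw [hfin]
      calc (D2 - ((k : ℝ) + 1) * (D1 - D2)) / D2 / D1 ≤ (3 / 2) / (3 / 4 * l 0) := by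
            apply div_le_div₀ (by norm_num) hq2 (by positivity) hlow
        _ = 2 / l 0 := by field_simp; norm_num

theorem Seq_after (m : ℕ) (a l : ℕ → ℝ) (L : ℝ) (hL : 0 < L)
    (ha : ∀ j : ℕ, j ≤ m → 0 < a j) (hrec : ∀ j : ℕ, j < m → ((j : ℝ) + 1) * a (j + 1) =
      ∑ i ∈ range (j + 1), l i * a (j - i))
    (hl0 : L ≤ l 0) (hl : ∀ N : ℕ, ∑ n ∈ range N, |l n| * 3 ^ (n + 1) ≤ 9 / 2 * L)
    (hup : ∀ j : ℕ, j < m → ((j : ℝ) + 1) * a (j + 1) ≤ 17 / 16 * L * a j)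
    (j : ℕ) (hj : j < m) (hr : ∀ i, i ≤ j → Seq_r a i ≤ 3 / 2) (h32 : 3 / 2 < Seq_r a (j + 1))
    (i : ℕ) (hi : j ≤ i) (him : i < m) : a (i + 1) ≤ a i := by
  have hl0' : 0 < l 0 := lt_of_lt_of_le hL hl0
  have h98 : 9 / 8 * l 0 ≤ (j : ℝ) + 1 := by
    rcases j with _ | k
    · have h := hrec 0 hj
      simp at h
      have h0 : 0 < a 0 := ha 0 (by omega)
      rw [zero_add, Seq_r_succ, zero_add, h] at h32
      have e : a 0 / (l 0 * a 0) = 1 / l 0 := by field_simp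
      rw [e, lt_div_iff₀ hl0'] at h32
      push_cast
      linarith
    · have hD1 := Seq_D1 m a l ha hrec k hj
      have hlow := Seq_low m a l L hL ha hrec hl0 hl k hj hr
      push_cast
      have : (3 / 2) * (3 / 4 * l 0) ≤ (k : ℝ) + 2 := by
        rw [hD1]
        exact mul_le_mul h32.le hlow (by positivity) (by linarith)
      linarith
  have h1 := hup i him
  have h2 : (j : ℝ) ≤ i := by exact_mod_cast hi
  have h3 : 0 < a i := ha i (by omega)
  have h4 : 0 < a (i + 1) := ha (i + 1) (by omega)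
  have h5 : 17 / 16 * L ≤ (i : ℝ) + 1 := by linarith
  have h6 : ((i : ℝ) + 1) * a (i + 1) ≤ ((i : ℝ) + 1) * a i :=
    h1.trans (mul_le_mul_of_nonneg_right h5 h3.le)
  exact le_of_mul_le_mul_left h6 (by positivity)

theorem seq_unimodal (m : ℕ) (a l : ℕ → ℝ) (L : ℝ) (hL : 0 < L)
    (ha : ∀ j : ℕ, j ≤ m → 0 < a j) (hrec : ∀ j : ℕ, j < m → ((j : ℝ) + 1) * a (j + 1) =
      ∑ i ∈ range (j + 1), l i * a (j - i))
    (hl0 : L ≤ l 0) (hl : ∀ N : ℕ, ∑ n ∈ range N, |l n| * 3 ^ (n + 1) ≤ 9 / 2 * L)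
    (hup : ∀ j : ℕ, j < m → ((j : ℝ) + 1) * a (j + 1) ≤ 17 / 16 * L * a j) :
    ∃ J, (∀ j : ℕ, j < m → j < J → a j ≤ a (j + 1)) ∧ (∀ j : ℕ, j < m → J ≤ j → a (j + 1) ≤ a j) := by
  classical
  by_cases hex : ∃ J, J < m ∧ a (J + 1) < a J
  · have hspec := Nat.find_spec hex
    have hmin := fun j => Nat.find_min hex (m := j)
    set J := Nat.find hex with hJdef
    refine ⟨J, ?_, ?_⟩
    · intro j hj hjJ
      have := hmin j hjJ
      by_contra h
      push Not at h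
      exact this ⟨hj, h⟩
    · intro j hj hJj
      by_cases hall : ∀ i, i ≤ j → Seq_r a i ≤ 3 / 2
      · -- monotone
        have hmono : ∀ i, J ≤ i → i ≤ j → 1 ≤ Seq_r a (i + 1) := by
          intro i hi
          induction i, hi using Nat.le_induction with
          | base =>
            intro _
            rw [Seq_r_succ, one_le_div (ha _ (by omega))]
            exact hspec.2.le
          | succ i hi ih =>
            intro hij
            have h1 := ih (by omega)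
            have h2 := Seq_step m a l L hL ha hrec hl0 hl (i + 1) (by omega)
              (fun i' hi' => hall i' (by omega))
            linarith [h2.1]
        have h := hmono j hJj le_rfl
        rwa [Seq_r_succ, one_le_div (ha _ (by omega))] at h
      · push Not at hall
        have hs := Nat.find_spec hall
        have hm := fun i => Nat.find_min hall (m := i)
        set I := Nat.find hall with hIdef
        have hI0 : I ≠ 0 := by
          intro h
          rw [h, Seq_r_zero] at hs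
          linarith [hs.2]
        obtain ⟨K, hK⟩ := Nat.exists_eq_succ_of_ne_zero hI0
        refine Seq_after m a l L hL ha hrec hl0 hl hup K (by omega) ?_ ?_ j (by omega) hj
        · intro i hi
          have := hm i (by omega)
          push Not at this
          exact this (by omega)
        · have := hs.2
          rw [hK] at this
          exact this
  · push Not at hex
    refine ⟨m, fun j hj _ => hex j hj, fun j hj hj' => by omega⟩

end Pool.Agent.HypU
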