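import Mathlib
import Pool.Agent.HypU.Est
import Pool.Agent.HypU.Coef
import Pool.Agent.HypU.Seq
import Pool.Agent.HypU.Comb
import Pool.Agent.HypU.Iso
import Pool.Agent.HypU.Tree

/-!
# HYP: module Final — assembly
-/

open Finset PowerSeries

namespace Pool.Agent.HypU

variable {V : Type} [Fintype V] [DecidableEq V]

/-- The local condition in terms of the hypergraph. -/
def HCond (E : Finset (Finset V)) : Prop :=
  ∀ e ∈ E, 16 ≤ priv E e ∧
    12 + 4 * ∑ v ∈ e.filter (fun v => 2 ≤ deg E v),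
      ((deg E v : ℝ) - 1) * ∏ c ∈ E.filter (fun c => v ∈ c ∧ c ≠ e), (4 / (priv E c : ℝ)) ≤
      (priv E e : ℝ)

theorem cond_of_HCond (E : Finset (Finset V)) (hC : HCond E) :
    Cond (Ev E) (fun e : ↥E => (priv E e.1 : ℝ)) := by
  intro e
  obtain ⟨h1, h2⟩ := hC e.1 e.2
  refine ⟨(by exact_mod_cast h1 : (16 : ℝ) ≤ (priv E e.1 : ℝ)), le_trans (le_of_eq ?_) h2⟩
  congr 2
  apply Finset.sum_congr
  · ext v
    simp only [Finset.mem_filter, Finset.mem_univ, true_and, Ev_card]
    simp only [Ev, Finset.mem_filter, Finset.mem_univ, true_and]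
    tauto
  · intro v _
    rw [Ev_card]
    congr 1
    apply Finset.prod_bij (fun c _ => c.1)
    · intro c hc
      simp only [Ev, Finset.mem_erase, Finset.mem_filter, Finset.mem_univ, true_and] at hc ⊢
      exact ⟨c.2, hc.2, fun h => hc.1 (Subtype.ext h)⟩
    · intro c _ c' _ h
      exact Subtype.ext h
    · intro c hc
      simp only [Finset.mem_filter] at hc
      refine ⟨⟨c, hc.1⟩, ?_, rfl⟩
      simp only [Ev, Finset.mem_erase, Finset.mem_filter, Finset.mem_univ, true_and]
      exact ⟨fun h => hc.2.2 (congrArg Subtype.val h), hc.2.1⟩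
    · intro c _
      rfl

theorem main (E : Finset (Finset V)) (hT : IsHypertree E) (hL : IsLinear E) (hC : HCond E) :
    Unimodal (indepCount E) := by
  apply unimodal_of_nonisolated
  show Unimodal (cntNI E)
  have hzero := cntNI_eq_zero E
  rcases E.eq_empty_or_nonempty with hE | hE
  · refine ⟨0, fun k hk => absurd hk (Nat.not_lt_zero k), fun k _ => ?_⟩
    rw [hzero (k + 1) (by rw [hE]; simp)]
    exact Nat.zero_le _
  have hrec := rec_Zp E
  have hcond := cond_of_HCond E hC
  have hp : ∀ e : ↥E, 0 < (priv E e.1 : ℝ) := fun e => by linarith [(hcond e).1]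
  have hne : ∀ e ∈ E, e.Nonempty := by
    intro e he
    have h1 := (hC e he).1
    unfold priv at h1
    have h2 : 0 < (e.filter (fun v => deg E v = 1)).card := by omega
    obtain ⟨v, hv⟩ := Finset.card_pos.1 h2
    exact ⟨v, (Finset.mem_filter.1 hv).1⟩
  obtain ⟨B, hB⟩ := acyc_of_hypertree E hT hL hne
  have hB' : Acyc (Ev E) B := hB
  obtain ⟨l, hl1, hl2⟩ := logder hrec hcond hB'
  have hcoef := coeff_succ_le hrec (fun e => (hcond e).1) hB'
  set L : ℝ := ∑ e : ↥E, 1 / (priv E e.1 : ℝ) with hLdef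
  obtain ⟨e0, he0⟩ := hE
  have hLpos : 0 < L := by
    rw [hLdef]
    apply Finset.sum_pos
    · intro e _
      have := hp e
      positivity
    · exact ⟨⟨e0, he0⟩, Finset.mem_univ _⟩
  have hcard : (univ : Finset ↥E).card = E.card := by
    rw [Finset.card_univ, Fintype.card_coe]
  set m := E.card with hm
  set a : ℕ → ℝ := fun j => coeff j (Zp E univ) with ha
  have hapos : ∀ j : ℕ, j ≤ m → 0 < a j := by
    intro j hj
    exact coeff_pos hrec hp univ j (by rw [hcard]; exact hj)
  have h0 : L ≤ l 0 := by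
    have h1 := coeff_one_ge hrec hp (univ : Finset ↥E)
    have h2 := hl1 0
    simp only [Nat.cast_zero, zero_add, one_mul, Finset.range_one, Finset.sum_singleton,
      Nat.sub_zero] at h2
    have h3 := hapos 0 (Nat.zero_le _)
    have h4 : L * a 0 ≤ l 0 * a 0 := by
      show L * coeff 0 (Zp E univ) ≤ l 0 * coeff 0 (Zp E univ)
      rw [← h2]
      exact h1
    exact le_of_mul_le_mul_right h4 h3
  obtain ⟨J, hJ1, hJ2⟩ := seq_unimodal m a l L hLpos hapos (fun j _ => hl1 j) h0 hl2
    (fun j _ => hcoef j)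
  have hcnt : ∀ k, k ≤ m → (cntNI E k : ℝ) = a (m - k) := fun k hk => (coeff_Zp E k hk).symm
  refine ⟨m - J, fun k hk => ?_, fun k hk => ?_⟩
  · have h1 := hJ2 (m - k - 1) (by omega) (by omega)
    have h2 := hcnt k (by omega)
    have h3 := hcnt (k + 1) (by omega)
    have h4 : m - k - 1 + 1 = m - k := by omega
    have h5 : m - (k + 1) = m - k - 1 := by omega
    rw [h4] at h1
    rw [h5] at h3
    have h6 : (cntNI E k : ℝ) ≤ cntNI E (k + 1) := by rw [h2, h3]; exact h1
    exact_mod_cast h6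
  · by_cases hkm : k < m
    · have h1 := hJ1 (m - k - 1) (by omega) (by omega)
      have h2 := hcnt k (by omega)
      have h3 := hcnt (k + 1) (by omega)
      have h4 : m - k - 1 + 1 = m - k := by omega
      have h5 : m - (k + 1) = m - k - 1 := by omega
      rw [h4] at h1
      rw [h5] at h3
      have h6 : (cntNI E (k + 1) : ℝ) ≤ cntNI E k := by rw [h2, h3]; exact h1
      exact_mod_cast h6
    · rw [hzero (k + 1) (by omega)]
      exact Nat.zero_le _

theorem priv_add_shared (E : Finset (Finset V)) (e : Finset V) :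
    priv E e + (e.filter (fun v => 2 ≤ deg E v)).card ≤ e.card := by
  unfold priv
  rw [← Finset.card_union_of_disjoint]
  · exact Finset.card_le_card (Finset.union_subset (Finset.filter_subset _ _)
      (Finset.filter_subset _ _))
  · rw [Finset.disjoint_left]
    intro v h1 h2
    simp only [Finset.mem_filter] at h1 h2
    omega

theorem cor (E : Finset (Finset V)) (p : ℕ) (hp0 : 0 < p) (hp : ∀ e ∈ E, p ≤ priv E e)
    (hs : ∀ e ∈ E, 16 * e.card ≤ p ^ 2) : HCond E := by
  intro e he
  have h1 := priv_add_shared E e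
  have h2 := hp e he
  have h3 := hs e he
  have hp16 : 16 ≤ p := by
    by_contra h
    push Not at h
    nlinarith
  refine ⟨by omega, ?_⟩
  have hpR : (16 : ℝ) ≤ p := by exact_mod_cast hp16
  have hterm : ∀ v ∈ e.filter (fun v => 2 ≤ deg E v),
      ((deg E v : ℝ) - 1) * ∏ c ∈ E.filter (fun c => v ∈ c ∧ c ≠ e), (4 / (priv E c : ℝ)) ≤
        4 / (p : ℝ) := by
    intro v hv
    obtain ⟨hve, hdeg⟩ := Finset.mem_filter.1 hv
    have hcard : (E.filter (fun c => v ∈ c ∧ c ≠ e)).card = deg E v - 1 := by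
      have : E.filter (fun c => v ∈ c ∧ c ≠ e) = (E.filter (fun c => v ∈ c)).erase e := by
        ext c
        simp only [Finset.mem_filter, Finset.mem_erase]
        tauto
      rw [this, Finset.card_erase_of_mem (Finset.mem_filter.2 ⟨he, hve⟩)]
      rfl
    obtain ⟨k, hk⟩ : ∃ k, deg E v = k + 2 := ⟨deg E v - 2, by omega⟩
    have h4 : ∏ c ∈ E.filter (fun c => v ∈ c ∧ c ≠ e), (4 / (priv E c : ℝ)) ≤
        (4 / (p : ℝ)) ^ (k + 1) := by
      have h5 : k + 1 = (E.filter (fun c => v ∈ c ∧ c ≠ e)).card := by rw [hcard, hk]; rfl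
      rw [h5, ← Finset.prod_const]
      apply Finset.prod_le_prod
      · intro c _
        positivity
      · intro c hc
        have h6 : (p : ℝ) ≤ priv E c := by exact_mod_cast hp c (Finset.mem_filter.1 hc).1
        apply div_le_div_of_nonneg_left (by norm_num) (by linarith) h6
    have h7 : (4 / (p : ℝ)) ^ k ≤ (1 / 4) ^ k := by
      apply pow_le_pow_left₀ (by positivity)
      rw [div_le_div_iff₀ (by linarith) (by norm_num)]
      linarith
    have h8 : ((deg E v : ℝ) - 1) * (1 / 4) ^ k ≤ 1 := by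
      rw [hk]
      have h9 : (k : ℝ) + 1 ≤ 4 ^ k := by
        have h5 := one_add_mul_le_pow (show (-2 : ℝ) ≤ 3 by norm_num) k
        have h6 : (0 : ℝ) ≤ k := Nat.cast_nonneg k
        have h7 : (1 + 3 : ℝ) ^ k = 4 ^ k := by norm_num
        rw [h7] at h5
        nlinarith
      have h10 : (0 : ℝ) < 4 ^ k := by positivity
      rw [one_div, inv_pow, ← div_eq_mul_inv, div_le_one h10]
      push_cast
      linarith
    have h11 : (0 : ℝ) ≤ (deg E v : ℝ) - 1 := by
      rw [hk]; push_cast; linarith [Nat.cast_nonneg (α := ℝ) k]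
    calc ((deg E v : ℝ) - 1) * ∏ c ∈ E.filter (fun c => v ∈ c ∧ c ≠ e), (4 / (priv E c : ℝ))
        ≤ ((deg E v : ℝ) - 1) * (4 / (p : ℝ)) ^ (k + 1) := mul_le_mul_of_nonneg_left h4 h11
      _ = ((deg E v : ℝ) - 1) * (4 / (p : ℝ)) ^ k * (4 / (p : ℝ)) := by ring
      _ ≤ ((deg E v : ℝ) - 1) * (1 / 4) ^ k * (4 / (p : ℝ)) := by gcongr
      _ ≤ 1 * (4 / (p : ℝ)) := by
          apply mul_le_mul_of_nonneg_right h8
          positivity
      _ = 4 / (p : ℝ) := one_mul _
  have hsum := Finset.sum_le_sum hterm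
  rw [Finset.sum_const, nsmul_eq_mul] at hsum
  set s := (e.filter (fun v => 2 ≤ deg E v)).card with hsdef
  have h12 : (s : ℝ) + priv E e ≤ e.card := by exact_mod_cast (by omega : s + priv E e ≤ e.card)
  have h13 : (16 : ℝ) * e.card ≤ p ^ 2 := by exact_mod_cast h3
  have h14 : (p : ℝ) ≤ priv E e := by exact_mod_cast h2
  have h15 : (s : ℝ) * (4 / (p : ℝ)) ≤ ((p : ℝ) ^ 2 / 16 - p) * (4 / (p : ℝ)) := by
    apply mul_le_mul_of_nonneg_right _ (by positivity)
    linarith
  have h16 : ((p : ℝ) ^ 2 / 16 - p) * (4 / (p : ℝ)) = p / 4 - 4 := by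
    have : (p : ℝ) ≠ 0 := by linarith
    field_simp
    ring
  linarith

end Pool.Agent.HypU
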